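import Pool.Agent.Helper6.AS.S14
import Pool.Agent.Helper6.AS.S05
import Pool.Agent.Helper11.QR.CutLog
import Pool.Agent.Helper6.DG.N0

/-!
# Project FAR (MP_e0aac0_nt): all but boundedly many far coordinates split off

Goal: for every `k` and `ε` there is `B` such that for all sites `a 0, ..., a (k-1)` and all bounded
`F`, in every window of scales, `Ω(n + h)` is independent of the vector `(Ω(n + a c))_c`, tested by `F`,
up to `ε`, for all shifts `h` but at most `B`.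
-/

set_option autoImplicit false

namespace FR

open Finset Helper13.Om Helper11.QR AS

/-- `R` is `δ`-small against all products `g(y) f(x)`, at the scale `N`. -/
def CutM (k N : ℕ) (δ : ℝ) (R : (Fin k → ℕ) → ℕ → ℝ) : Prop :=
  ∀ (g : (Fin k → ℕ) → ℝ) (f : ℕ → ℝ), (∀ y, |g y| ≤ 1) → (∀ x, |f x| ≤ 1) →
    |Ep (k + 1) N (fun ℓ => R (fun c => ℓ c.castSucc) (ℓ (Fin.last k)) *
      (g (fun c => ℓ c.castSucc) * f (ℓ (Fin.last k))))| ≤ δ

/-- `E_{n ≤ M} F (Ω(n + a c))_c (Ω(n + h))` -/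
noncomputable def Jm {k : ℕ} (M : ℕ) (a : Fin k → ℕ) (h : ℕ) (F : (Fin k → ℕ) → ℕ → ℝ) : ℝ :=
  1 / (M : ℝ) * ∑ n ∈ Icc 1 M, F (fun c => ArithmeticFunction.cardFactors (n + a c))
    (ArithmeticFunction.cardFactors (n + h))

/-- `E_{n, m ≤ M} F (Ω(n + a c))_c (Ω(m))` -/
noncomputable def Sm {k : ℕ} (M : ℕ) (a : Fin k → ℕ) (F : (Fin k → ℕ) → ℕ → ℝ) : ℝ :=
  1 / (M : ℝ) * ∑ n ∈ Icc 1 M, (1 / (M : ℝ) * ∑ m ∈ Icc 1 M,
    F (fun c => ArithmeticFunction.cardFactors (n + a c)) (ArithmeticFunction.cardFactors m))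

/-- The edges of the cube: `(x, j)` with `j ∉ x`, from the vertex `x` to `insert j x`. -/
def edH (t : ℕ) : Finset (Finset (Fin t) × Fin t) := univ.filter (fun e => e.2 ∉ e.1)

/-- The site of the right (`none`) or left (`some c`) position of the vertex `v.1`. -/
def posH {k t : ℕ} (a : Fin k → ℕ) (h₀ : ℕ) (d : Fin t → ℕ) (v : Finset (Fin t) × Option (Fin k)) :
    ℕ := v.2.elim (h₀ + ∑ j ∈ v.1, d j) (fun c => a c + ∑ j ∈ v.1, d j)

end FR
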