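import Pool.Agent.Helper6.FR.Defs
import Pool.Agent.Helper6.AS.S10a
import Pool.Agent.Helper11.QR.Hybrid
import Pool.Agent.Helper11.QR.Tail

/-!
# FAR-1: tail bound for the cube sum in the model

PROOF. As AS-10b, AS-11 (Helper6/AS/S10b.lean, S11.lean), but with fixed positions. Union bound over
`w ∈ Wn`. For each `w` use `tail` (Helper11/QR/Tail.lean) with the vertex set `V = Finset (Fin t)`, the
alphabet `Y = Option (Fin k) → Fin (L + 2)`, `ρ v z = ∏ κ, sg P L (z κ)` (curry: `EE_split` of AS-10a with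
`A = B = Unit`, or directly), the index set `edH t`, `A e = {e.1, insert e.2 e.1}` (two different edges share at
most one vertex), `φ e z = R e.2 (fun c => z e.1 (some c) + ...) (z (insert e.2 e.1) none + ...)`.
Cut condition: the other letters are summed out; `f (e.1) (z e.1)` depends on `z e.1 (some ·)` and `z e.1 none`,
sum over `z e.1 none` gives a function `g̃` of the left letters bounded by `1`, in the same way
`f (insert ..)` gives a function of the right letter; then as in `edgeCutA` (`hybrid` with `D = 0`, Helper11/QR/Hybrid)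
within `(k + 1) τ` of the `Ep (k + 1) N` expression of `CutM`.
-/

set_option autoImplicit false

namespace FR

open Finset Helper13.Om Helper11.QR AS

private noncomputable def f1_rho (k L : ℕ) (P : Finset ℕ) (z : Option (Fin k) → Fin (L + 2)) : ℝ :=
  ∏ κ, sg P L (z κ)

private def f1_opt {k : ℕ} {Y : Type} (y : Fin k → Y) (x : Y) : Option (Fin k) → Y :=
  fun o => o.elim x y

private lemma f1_opt_sum {k : ℕ} {Y : Type} [Fintype Y] [DecidableEq Y]
    (Φ : (Option (Fin k) → Y) → ℝ) : ∑ z, Φ z = ∑ x, ∑ y, Φ (f1_opt y x) := by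
  rw [← Equiv.sum_comp (Equiv.piOptionEquivProd (β := fun _ => Y)).symm Φ, Fintype.sum_prod_type]
  refine Finset.sum_congr rfl fun x _ => Finset.sum_congr rfl fun y _ => ?_
  congr 1
  funext o
  cases o <;> rfl

private lemma f1_snoc_sum {k : ℕ} {Y : Type} [Fintype Y] [DecidableEq Y] (ρ : Y → ℝ)
    (Φ : (Fin (k + 1) → Y) → ℝ) :
    EE (fun _ : Fin (k + 1) => ρ) Φ =
      ∑ x, ∑ y : Fin k → Y, ((∏ c, ρ (y c)) * ρ x) * Φ (Fin.snoc (α := fun _ => Y) y x) := by
  unfold EE
  rw [← Equiv.sum_comp (Fin.snocEquiv (fun _ => Y)), Fintype.sum_prod_type]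
  refine Finset.sum_congr rfl fun x _ => Finset.sum_congr rfl fun y _ => ?_
  rw [Fin.prod_univ_castSucc]
  simp [Fin.snocEquiv]

private lemma f1_rho_sum (k L : ℕ) (P : Finset ℕ) : ∑ z, f1_rho k L P z = 1 := by
  unfold f1_rho
  rw [← Fintype.prod_sum (fun (_ : Option (Fin k)) t => sg P L t)]
  exact Finset.prod_eq_one fun _ _ => sg_sum P L

private lemma f1_two {V A : Type} [Fintype V] [DecidableEq V] [Fintype A] [DecidableEq A] (ρ : A → ℝ)
    (h1 : ∑ z, ρ z = 1) (i j : V) (hij : i ≠ j) (Φ : A → A → ℝ) :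
    EE (fun _ : V => ρ) (fun z => Φ (z i) (z j)) = ∑ z', ρ z' * ∑ z, ρ z * Φ z z' := by
  have h := EE_resample (fun _ : V => ρ) i h1 ρ (fun z => Φ (z i) (z j))
  rw [Function.update_eq_self_iff.2 rfl] at h
  rw [h]
  have e : (fun y : V → A => ∑ s, ρ s * Φ ((Function.update y i s) i) ((Function.update y i s) j)) =
      fun y => (fun z' => ∑ s, ρ s * Φ s z') (y j) := by
    funext y
    refine Finset.sum_congr rfl fun s _ => ?_
    rw [Function.update_self, Function.update_of_ne hij.symm]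
  rw [e]
  exact EE_single (fun _ : V => ρ) (fun _ => h1) j (fun z' => ∑ s, ρ s * Φ s z')

private lemma f1_curry {V K Y : Type} [Fintype V] [DecidableEq V] [Fintype K] [DecidableEq K]
    [Fintype Y] [DecidableEq Y] (ρ : Y → ℝ) (Φ : (V × K → Y) → ℝ) :
    EE (fun _ : V × K => ρ) Φ =
      EE (fun (_ : V) (z : K → Y) => ∏ κ, ρ (z κ)) (fun z => Φ (fun p => z p.1 p.2)) := by
  unfold EE
  rw [← (Equiv.curry V K Y).symm.sum_comp]
  refine Finset.sum_congr rfl fun z _ => ?_
  rw [Fintype.prod_prod_type]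
  rfl

private lemma f1_sm_le (h x : ℕ) : sm h x ≤ h := by
  unfold sm
  have h1 : ((Finset.range (h + 1)).filter (fun p => p.Prime ∧ p ∣ x)) ⊆ Finset.Icc 1 h := by
    intro p hp
    rw [Finset.mem_filter, Finset.mem_range] at hp
    rw [Finset.mem_Icc]
    exact ⟨hp.2.1.one_lt.le, by omega⟩
  have h2 := Finset.card_le_card h1
  rwa [Nat.card_Icc, Nat.add_sub_cancel] at h2

private lemma f1_inter {t : ℕ} (e e' : Finset (Fin t) × Fin t) (he : e.2 ∉ e.1) (he' : e'.2 ∉ e'.1)
    (hne : e ≠ e') :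
    (({e.1, insert e.2 e.1} : Finset (Finset (Fin t))) ∩ {e'.1, insert e'.2 e'.1}).card ≤ 1 := by
  rw [Finset.card_le_one]
  intro x hx y hy
  simp only [Finset.mem_inter, Finset.mem_insert, Finset.mem_singleton] at hx hy
  by_contra hxy
  apply hne
  obtain ⟨u, j⟩ := e
  obtain ⟨u', j'⟩ := e'
  simp only at he he' hx hy
  have hcu : (insert j u).card = u.card + 1 := Finset.card_insert_of_notMem he
  have hcu' : (insert j' u').card = u'.card + 1 := Finset.card_insert_of_notMem he'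
  have key : u = u' ∧ insert j u = insert j' u' := by
    rcases hx with ⟨rfl | rfl, hx2 | hx2⟩ <;> rcases hy with ⟨rfl | rfl, hy2 | hy2⟩
    all_goals
      first
        | exact absurd rfl hxy
        | exact absurd (hx2.trans hy2.symm) hxy
        | exact ⟨hx2, hy2⟩
        | exact ⟨hy2, hx2⟩
        | (exfalso
           have a1 := congrArg Finset.card hx2
           have a2 := congrArg Finset.card hy2
           rw [hcu] at *
           omega)
  obtain ⟨h1, h2⟩ := key
  subst h1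
  have h3 : j ∈ insert j' u := by rw [← h2]; exact Finset.mem_insert_self _ _
  rcases Finset.mem_insert.mp h3 with h4 | h4
  · rw [h4]
  · exact absurd h4 he

private lemma f1_edge {V : Type} [Fintype V] [DecidableEq V] (k L N B : ℕ) (hN : 1 ≤ N)
    (P : Finset ℕ) (hP : ∀ p ∈ P, p.Prime) (hL : P.card ≤ L + 1) (R : (Fin k → ℕ) → ℕ → ℝ)
    (hR : ∀ y x, |R y x| ≤ 1) (δ τ : ℝ) (hcut : CutM k N δ R)
    (hτ : ∀ b ≤ B, ∀ b' ≤ B, ∀ a : ℕ → ℝ, (∀ t, |a t| ≤ 1) →
      |Es P (fun t => a (t + b)) -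
        1 / (N : ℝ) * ∑ n ∈ Finset.Icc 1 N, a (ArithmeticFunction.cardFactors n + b')| ≤ τ)
    (bL : Fin k → ℕ) (bR : ℕ) (hbL : ∀ c, bL c ≤ B) (hbR : bR ≤ B)
    (i j : V) (hij : i ≠ j) (f : V → (Option (Fin k) → Fin (L + 2)) → ℝ)
    (hf : ∀ v z, |f v z| ≤ 1) :
    |EE (fun (_ : V) z => f1_rho k L P z) (fun z =>
      R (fun c => (z i (some c) : ℕ) + bL c) ((z j none : ℕ) + bR) *
      (f i (z i) * f j (z j)))| ≤ δ + (k + 1 : ℕ) * τ := by
  classical
  have hsg0 : ∀ t, 0 ≤ sg P L t := fun t => sg_nonneg P hP L t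
  have hsgp : ∀ y : Fin k → Fin (L + 2), 0 ≤ ∏ c, sg P L (y c) :=
    fun y => Finset.prod_nonneg fun c _ => hsg0 _
  have hsum1 : ∑ y : Fin k → Fin (L + 2), ∏ c, sg P L (y c) = 1 := by
    rw [← Fintype.prod_sum (fun (_ : Fin k) t => sg P L t)]
    exact Finset.prod_eq_one fun _ _ => sg_sum P L
  obtain ⟨F1, hF1⟩ : ∃ F1 : (Fin k → Fin (L + 2)) → ℝ, ∀ y, F1 y =
    ∑ x, sg P L x * f i (f1_opt y x) := ⟨_, fun _ => rfl⟩
  obtain ⟨G1, hG1⟩ : ∃ G1 : Fin (L + 2) → ℝ, ∀ x, G1 x =
    ∑ y, (∏ c, sg P L (y c)) * f j (f1_opt y x) := ⟨_, fun _ => rfl⟩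
  have hF1b : ∀ y, |F1 y| ≤ 1 := by
    intro y
    rw [hF1]
    refine (Finset.abs_sum_le_sum_abs _ _).trans ?_
    have h2 : ∀ x ∈ (Finset.univ : Finset (Fin (L + 2))),
        |sg P L x * f i (f1_opt y x)| ≤ sg P L x := by
      intro x _
      rw [abs_mul, abs_of_nonneg (hsg0 x)]
      calc _ ≤ sg P L x * 1 := mul_le_mul_of_nonneg_left (hf _ _) (hsg0 x)
        _ = _ := mul_one _
    refine (Finset.sum_le_sum h2).trans ?_
    rw [sg_sum]
  have hG1b : ∀ x, |G1 x| ≤ 1 := by
    intro x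
    rw [hG1]
    refine (Finset.abs_sum_le_sum_abs _ _).trans ?_
    have h2 : ∀ y ∈ (Finset.univ : Finset (Fin k → Fin (L + 2))),
        |(∏ c, sg P L (y c)) * f j (f1_opt y x)| ≤ ∏ c, sg P L (y c) := by
      intro y _
      rw [abs_mul, abs_of_nonneg (hsgp y)]
      calc _ ≤ (∏ c, sg P L (y c)) * 1 := mul_le_mul_of_nonneg_left (hf _ _) (hsgp y)
        _ = _ := mul_one _
    refine (Finset.sum_le_sum h2).trans ?_
    rw [hsum1]
  -- the functions of the cut norm
  set F : (Fin k → ℕ) → ℝ := fun y =>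
    if h : ∀ c, bL c ≤ y c ∧ y c - bL c < L + 2 then
      F1 (fun c => ⟨y c - bL c, (h c).2⟩) else 0 with hFdef
  set G : ℕ → ℝ := fun x =>
    if h : bR ≤ x ∧ x - bR < L + 2 then G1 ⟨x - bR, h.2⟩ else 0 with hGdef
  have hFb : ∀ y, |F y| ≤ 1 := by
    intro y
    simp only [hFdef]
    split_ifs
    · exact hF1b _
    · simp
  have hGb : ∀ x, |G x| ≤ 1 := by
    intro x
    simp only [hGdef]
    split_ifs
    · exact hG1b _
    · simp
  have hFe : ∀ y : Fin k → Fin (L + 2), F (fun c => (y c : ℕ) + bL c) = F1 y := by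
    intro y
    have h : ∀ c, bL c ≤ (y c : ℕ) + bL c ∧ (y c : ℕ) + bL c - bL c < L + 2 := by
      refine fun c => ⟨Nat.le_add_left _ _, ?_⟩
      rw [Nat.add_sub_cancel]
      exact (y c).2
    simp only [hFdef]
    rw [dif_pos h]
    congr 1
    funext c
    exact Fin.ext (Nat.add_sub_cancel _ _)
  have hGe : ∀ x : Fin (L + 2), G ((x : ℕ) + bR) = G1 x := by
    intro x
    have h : bR ≤ (x : ℕ) + bR ∧ (x : ℕ) + bR - bR < L + 2 := by
      refine ⟨Nat.le_add_left _ _, ?_⟩
      rw [Nat.add_sub_cancel]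
      exact x.2
    simp only [hGdef]
    rw [dif_pos h]
    congr 1
    exact Fin.ext (Nat.add_sub_cancel _ _)
  set Ψ : (Fin (k + 1) → ℕ) → ℝ := fun ℓ =>
    R (fun c => ℓ c.castSucc) (ℓ (Fin.last k)) * (F (fun c => ℓ c.castSucc) * G (ℓ (Fin.last k)))
    with hΨ
  have hΨb : ∀ ℓ, |Ψ ℓ| ≤ 1 := by
    intro ℓ
    simp only [hΨ]
    rw [abs_mul, abs_mul]
    exact mul_le_one₀ (hR _ _) (by positivity) (mul_le_one₀ (hFb _) (abs_nonneg _) (hGb _))
  set w : Fin (k + 1) → ℕ := Fin.snoc (α := fun _ => ℕ) bL bR with hw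
  have hwB : ∀ c, w c ≤ B := by
    intro c
    simp only [hw]
    induction c using Fin.lastCases with
    | last => rw [Fin.snoc_last]; exact hbR
    | cast c => rw [Fin.snoc_castSucc]; exact hbL c
  have hyb : |EE (fun _ : Fin (k + 1) => sg P L) (fun y => Ψ (fun c => (y c : ℕ) + w c)) -
      Ep (k + 1) N Ψ| ≤ (k + 1 : ℕ) * τ := by
    have h := hybrid (k + 1) N L hN P hP hL B τ hτ w hwB 0 (Nat.zero_le _) Ψ hΨb
    simpa using h
  have hEE : EE (fun _ : Fin (k + 1) => sg P L) (fun y => Ψ (fun c => (y c : ℕ) + w c)) =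
      ∑ x, ∑ y : Fin k → Fin (L + 2), ((∏ c, sg P L (y c)) * sg P L x) *
        (R (fun c => (y c : ℕ) + bL c) ((x : ℕ) + bR) * (F1 y * G1 x)) := by
    rw [f1_snoc_sum]
    refine Finset.sum_congr rfl fun x _ => Finset.sum_congr rfl fun y _ => ?_
    congr 1
    simp only [hΨ, hw, Fin.snoc_castSucc, Fin.snoc_last]
    rw [hFe, hGe]
  have hmain : EE (fun (_ : V) z => f1_rho k L P z) (fun z =>
      R (fun c => (z i (some c) : ℕ) + bL c) ((z j none : ℕ) + bR) *
      (f i (z i) * f j (z j))) =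
      EE (fun _ : Fin (k + 1) => sg P L) (fun y => Ψ (fun c => (y c : ℕ) + w c)) := by
    have h1 := f1_two (V := V) (f1_rho k L P) (f1_rho_sum k L P) i j hij (fun z z' =>
      R (fun c => (z (some c) : ℕ) + bL c) ((z' none : ℕ) + bR) * (f i z * f j z'))
    refine h1.trans ?_
    have h2 : ∀ z' : Option (Fin k) → Fin (L + 2),
        ∑ z, f1_rho k L P z * (R (fun c => (z (some c) : ℕ) + bL c) ((z' none : ℕ) + bR) *
          (f i z * f j z')) =
        (∑ y : Fin k → Fin (L + 2), (∏ c, sg P L (y c)) *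
          (R (fun c => (y c : ℕ) + bL c) ((z' none : ℕ) + bR) * F1 y)) * f j z' := by
      intro z'
      rw [f1_opt_sum, Finset.sum_comm, Finset.sum_mul]
      refine Finset.sum_congr rfl fun y _ => ?_
      rw [hF1, Finset.mul_sum, Finset.mul_sum, Finset.sum_mul]
      refine Finset.sum_congr rfl fun x _ => ?_
      unfold f1_rho
      rw [Fintype.prod_option]
      show (sg P L x * ∏ c, sg P L (y c)) * (R (fun c => (y c : ℕ) + bL c) ((z' none : ℕ) + bR) *
          (f i (f1_opt y x) * f j z')) = _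
      ring
    rw [Finset.sum_congr rfl fun z' _ => congrArg (fun r => f1_rho k L P z' * r) (h2 z')]
    rw [f1_opt_sum, hEE]
    refine Finset.sum_congr rfl fun x _ => ?_
    have h3 : ∀ y : Fin k → Fin (L + 2), f1_rho k L P (f1_opt y x) *
        ((∑ y : Fin k → Fin (L + 2), (∏ c, sg P L (y c)) *
          (R (fun c => (y c : ℕ) + bL c) (((f1_opt y x none : Fin (L + 2)) : ℕ) + bR) * F1 y)) *
            f j (f1_opt y x)) =
        (∑ y : Fin k → Fin (L + 2), (∏ c, sg P L (y c)) *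
          (R (fun c => (y c : ℕ) + bL c) ((x : ℕ) + bR) * F1 y)) * sg P L x *
          ((∏ c, sg P L (y c)) * f j (f1_opt y x)) := by
      intro y
      unfold f1_rho
      rw [Fintype.prod_option]
      show (sg P L x * ∏ c, sg P L (y c)) * ((∑ y : Fin k → Fin (L + 2), (∏ c, sg P L (y c)) *
          (R (fun c => (y c : ℕ) + bL c) ((x : ℕ) + bR) * F1 y)) * f j (f1_opt y x)) = _
      ring
    refine (Finset.sum_congr rfl fun y _ => h3 y).trans ?_
    rw [← Finset.mul_sum, ← hG1, Finset.sum_mul, Finset.sum_mul]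
    refine Finset.sum_congr rfl fun y _ => ?_
    ring
  rw [hmain]
  have hc : |Ep (k + 1) N Ψ| ≤ δ := hcut F G hFb hGb
  have h9 := abs_sub_abs_le_abs_sub
    (EE (fun _ : Fin (k + 1) => sg P L) (fun y => Ψ (fun c => (y c : ℕ) + w c)))
    (Ep (k + 1) N Ψ)
  linarith

theorem tailH (k t L N h a₀ S B : ℕ) (hN : 1 ≤ N) (P : Finset ℕ)
    (hP : ∀ p ∈ P, p.Prime) (hL : P.card ≤ L + 1) (R : Fin t → (Fin k → ℕ) → ℕ → ℝ)
    (hR : ∀ j y x, |R j y x| ≤ 1) (δ τ : ℝ) (hδ : 0 ≤ δ) (hτ0 : 0 ≤ τ)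
    (hcut : ∀ j, CutM k N δ (R j))
    (hτ : ∀ b ≤ B, ∀ b' ≤ B, ∀ a : ℕ → ℝ, (∀ t, |a t| ≤ 1) →
      |Es P (fun t => a (t + b)) -
        1 / (N : ℝ) * ∑ n ∈ Finset.Icc 1 N, a (ArithmeticFunction.cardFactors n + b')| ≤ τ)
    (hB : h + S ≤ B) (q : Finset (Fin t) × Option (Fin k) → ℕ) (T x : ℝ) (hx : 0 ≤ x) :
    EE (fun _ : Finset (Fin t) × Option (Fin k) => sg P L) (fun ℓ =>
        if ∃ w ∈ Wn (Finset (Fin t) × Option (Fin k)) S, T ≤
          |∑ e ∈ edH t, R e.2 (fun c => (ℓ (e.1, some c) : ℕ) + sm h (a₀ + q (e.1, some c)) +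
              w (e.1, some c))
            ((ℓ (insert e.2 e.1, none) : ℕ) + sm h (a₀ + q (insert e.2 e.1, none)) +
              w (insert e.2 e.1, none))| then (1 : ℝ) else 0) ≤
      ((Wn (Finset (Fin t) × Option (Fin k)) S).card : ℝ) * (2 * Real.exp (-(x * T)) *
        (Real.exp (x ^ 2 / 2 * (edH t).card) +
          (edH t).card * (δ + (k + 1 : ℕ) * τ) * Real.exp (x * (edH t).card))) := by
  classical
  set ind : (Finset (Fin t) → Option (Fin k) → Fin (L + 2)) →
      (Finset (Fin t) × Option (Fin k) → ℕ) → ℝ := fun z w =>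
    if T ≤ |∑ e ∈ edH t, R e.2 (fun c => (z e.1 (some c) : ℕ) + sm h (a₀ + q (e.1, some c)) +
              w (e.1, some c))
            ((z (insert e.2 e.1) none : ℕ) + sm h (a₀ + q (insert e.2 e.1, none)) +
              w (insert e.2 e.1, none))| then (1 : ℝ) else 0 with hind
  rw [f1_curry]
  have h0 : ∀ (v : Finset (Fin t)) z, 0 ≤
      (fun (_ : Finset (Fin t)) (z : Option (Fin k) → Fin (L + 2)) => ∏ κ, sg P L (z κ)) v z := by
    intro v z
    exact Finset.prod_nonneg fun κ _ => sg_nonneg P hP L (z κ)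
  have h1 : ∀ v : Finset (Fin t), ∑ z,
      (fun (_ : Finset (Fin t)) (z : Option (Fin k) → Fin (L + 2)) => ∏ κ, sg P L (z κ)) v z = 1 :=
    fun v => f1_rho_sum k L P
  have hpt : ∀ z : Finset (Fin t) → Option (Fin k) → Fin (L + 2),
      (if ∃ w ∈ Wn (Finset (Fin t) × Option (Fin k)) S, T ≤
          |∑ e ∈ edH t, R e.2 (fun c => (z e.1 (some c) : ℕ) + sm h (a₀ + q (e.1, some c)) +
              w (e.1, some c))
            ((z (insert e.2 e.1) none : ℕ) + sm h (a₀ + q (insert e.2 e.1, none)) +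
              w (insert e.2 e.1, none))| then (1 : ℝ) else 0) ≤
      ∑ w ∈ Wn (Finset (Fin t) × Option (Fin k)) S, ind z w := by
    intro z
    have hnn : ∀ w ∈ Wn (Finset (Fin t) × Option (Fin k)) S, (0 : ℝ) ≤ ind z w := by
      intro w _
      rw [hind]
      simp only
      split_ifs <;> norm_num
    split_ifs with hex
    · obtain ⟨w, hw, hT⟩ := hex
      have := Finset.single_le_sum hnn hw
      refine le_trans ?_ this
      rw [hind]
      simp only
      rw [if_pos hT]
    · exact Finset.sum_nonneg hnn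
  refine (EE_mono _ h0 _ _ hpt).trans ?_
  rw [EE_sum]
  refine (Finset.sum_le_card_nsmul _ _ _ ?_).trans (le_of_eq (nsmul_eq_mul _ _))
  intro w hw
  have hwB : ∀ v, w v ≤ S := by
    intro v
    unfold Wn at hw
    have h2 : w v ≤ ∑ v, w v :=
      Finset.single_le_sum (fun _ _ => Nat.zero_le _) (Finset.mem_univ v)
    exact h2.trans (Finset.mem_filter.mp hw).2
  have hmem : ∀ e ∈ edH t, e.2 ∉ e.1 := by
    intro e he
    unfold edH at he
    exact (Finset.mem_filter.mp he).2
  refine tail _ h0 h1 (edH t)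
    (fun e => ({e.1, insert e.2 e.1} : Finset (Finset (Fin t))))
    (fun e z => R e.2 (fun c => (z e.1 (some c) : ℕ) + sm h (a₀ + q (e.1, some c)) +
              w (e.1, some c))
            ((z (insert e.2 e.1) none : ℕ) + sm h (a₀ + q (insert e.2 e.1, none)) +
              w (insert e.2 e.1, none)))
    (fun e _ z => hR _ _ _) ?_ ?_ (δ + (k + 1 : ℕ) * τ) (by positivity) ?_ x hx T
  · intro e _ z z' hzz
    have e1 : z e.1 = z' e.1 := hzz e.1 (by simp)
    have e2 : z (insert e.2 e.1) = z' (insert e.2 e.1) := hzz _ (by simp)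
    simp only [e1, e2]
  · intro e he e' he' hne
    exact f1_inter e e' (hmem e he) (hmem e' he') hne
  · intro e he f hf
    have h2 : e.1 ≠ insert e.2 e.1 := by
      intro hh
      apply hmem e he
      rw [hh]
      exact Finset.mem_insert_self _ _
    have h3 := f1_edge (V := Finset (Fin t)) k L N B hN P hP hL (R e.2) (hR e.2) δ τ (hcut e.2) hτ
      (fun c => sm h (a₀ + q (e.1, some c)) + w (e.1, some c))
      (sm h (a₀ + q (insert e.2 e.1, none)) + w (insert e.2 e.1, none))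
      (fun c => by
        have := f1_sm_le h (a₀ + q (e.1, some c))
        have := hwB (e.1, some c)
        show sm h (a₀ + q (e.1, some c)) + w (e.1, some c) ≤ B
        omega)
      (by
        have := f1_sm_le h (a₀ + q (insert e.2 e.1, none))
        have := hwB (insert e.2 e.1, none)
        omega)
      e.1 (insert e.2 e.1) h2 f hf
    have h4 : (fun z : Finset (Fin t) → Option (Fin k) → Fin (L + 2) =>
        R e.2 (fun c => (z e.1 (some c) : ℕ) + sm h (a₀ + q (e.1, some c)) + w (e.1, some c))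
            ((z (insert e.2 e.1) none : ℕ) + sm h (a₀ + q (insert e.2 e.1, none)) +
              w (insert e.2 e.1, none)) *
        ∏ v ∈ ({e.1, insert e.2 e.1} : Finset (Finset (Fin t))), f v (z v)) =
        (fun z => R e.2 (fun c => (z e.1 (some c) : ℕ) +
            (fun c => sm h (a₀ + q (e.1, some c)) + w (e.1, some c)) c)
          ((z (insert e.2 e.1) none : ℕ) +
            (sm h (a₀ + q (insert e.2 e.1, none)) + w (insert e.2 e.1, none))) *
          (f e.1 (z e.1) * f (insert e.2 e.1) (z (insert e.2 e.1)))) := by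
      funext z
      rw [Finset.prod_pair h2]
      simp only [add_assoc]
    rw [h4]
    exact h3

end FR
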