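import Pool.Agent.Helper6.FR.Defs
import Pool.Agent.Helper11.QR.WCount

/-!
# FAR-2: choice of the parameters

PROOF. As AS-12 (Helper6/AS/S12.lean). `(edH t).card = t 2^(t-1)` (or `2 (edH t).card = t 2^t`), `n = 2^t (k + 1)`,
`u = ⌈2 CpN (n+1) / ε₁⌉ + 1` (`CpN m = 10^6 (m+1)^2`), `K = ⌈K0 0 u / ε₁⌉ + 1`, `K0 0 u = 8 (Nat.log 2 u + 8)` up to the
constant term, so `K ≤ C (t + 1)` with `C = C(k, ε₁)`; `card (Wn ι (K n)) ≤ exp ((n + 1) (1 + log (K + 1)))`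
(`wCount` as in AS-12), and `(n + 1) (1 + log (K + 1)) ≤ 2^t (k + 2) C' (1 + log (t + 1))` is eventually smaller than
`ε₁² t 2^t / 8`, which also beats the constant `4 / ε₁`. Without loss `ε₁ ≤ 1`.
-/

set_option autoImplicit false

namespace FR

open Finset Helper13.Om Helper11.QR AS

private lemma h23_edH (t : ℕ) : t * 2 ^ t ≤ 2 * (edH t).card := by
  have h1 : (Finset.univ : Finset (Finset (Fin t) × Fin t)).card = 2 ^ t * t := by
    rw [Finset.card_univ, Fintype.card_prod, Fintype.card_finset, Fintype.card_fin]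
  have h2 : ((Finset.univ : Finset (Finset (Fin t) × Fin t)).filter (fun e => e.2 ∈ e.1)).card ≤
      (edH t).card := by
    refine Finset.card_le_card_of_injOn (fun e => (e.1ᶜ, e.2)) (fun e he => ?_) ?_
    · unfold edH
      simp only [Finset.coe_filter, Finset.mem_univ, true_and, Set.mem_ofPred_eq] at he ⊢
      rw [Finset.mem_compl, not_not]
      exact he
    · intro a _ b _ h
      simp only [Prod.mk.injEq, compl_inj_iff] at h
      exact Prod.ext h.1 h.2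
  have h4 : (Finset.univ : Finset (Finset (Fin t) × Fin t)) ⊆
      edH t ∪ (Finset.univ : Finset (Finset (Fin t) × Fin t)).filter (fun e => e.2 ∈ e.1) := by
    intro e _
    unfold edH
    simp only [Finset.mem_union, Finset.mem_filter, Finset.mem_univ, true_and]
    exact (em _).symm
  have h5 := Finset.card_le_card h4
  have h6 := Finset.card_union_le (edH t)
    ((Finset.univ : Finset (Finset (Fin t) × Fin t)).filter (fun e => e.2 ∈ e.1))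
  have h7 : 2 ^ t * t = t * 2 ^ t := Nat.mul_comm _ _
  omega

private lemma h23_Wn (ι : Type) [Fintype ι] [DecidableEq ι] (n : ℕ) (hn : Fintype.card ι = n)
    (S : ℕ) : (Wn ι S).card ≤ (WW n S).card := by
  have e : ι ≃ Fin n := Fintype.equivFinOfCardEq hn
  refine Finset.card_le_card_of_injOn (fun w => Fin.cons 0 (fun j => w (e.symm j)))
    (fun w hw => ?_) ?_
  · have hw' : w ∈ Wn ι S := hw
    unfold Wn at hw'
    rw [Finset.mem_filter] at hw'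
    refine Finset.mem_coe.2 ((mem_WW n S _).2 ?_)
    rw [Fin.sum_univ_succ]
    simp only [Fin.cons_zero, Fin.cons_succ, zero_add]
    rw [Equiv.sum_comp e.symm w]
    exact hw'.2
  · intro w _ w' _ h
    funext i
    have h1 := congrFun h (Fin.succ (e i))
    simp only [Fin.cons_succ, Equiv.symm_apply_apply] at h1
    exact h1

private lemma h23_Cp (k q : ℕ) (hq1 : (1 : ℝ) ≤ q) :
    (CpN (q * (k + 1) + 1) : ℝ) ≤ 10 ^ 6 * ((k : ℝ) + 3) ^ 2 * (q : ℝ) ^ 2 := by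
  have e0 : (CpN (q * (k + 1) + 1) : ℝ) = 10 ^ 6 * ((q : ℝ) * (k + 1) + 2) ^ 2 := by
    unfold CpN
    push_cast
    ring
  have e : (10 : ℝ) ^ 6 * ((k : ℝ) + 3) ^ 2 * (q : ℝ) ^ 2 = 10 ^ 6 * (((k : ℝ) + 3) * q) ^ 2 := by
    ring
  rw [e0, e]
  refine mul_le_mul_of_nonneg_left (pow_le_pow_left₀ (by positivity) ?_ 2) (by positivity)
  linarith

private lemma h23_fin (B L ε₁ s P E l m : ℝ) (hs1 : 1 ≤ s) (hP : 1 ≤ P) (hL0 : 0 ≤ L)
    (hsR : B + L ≤ ε₁ ^ 2 / 8 * s) (hedge : s ^ 2 * P / 4 ≤ E) (h5 : l - m ≤ L) :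
    B * (s * P) + l + -(ε₁ ^ 2 / 2 * E) ≤ m := by
  have hs0 : 0 ≤ s * P := by positivity
  have hsP : 1 ≤ s * P := one_le_mul_of_one_le_of_one_le hs1 hP
  have h2 : ε₁ ^ 2 / 2 * (s ^ 2 * P / 4) ≤ ε₁ ^ 2 / 2 * E :=
    mul_le_mul_of_nonneg_left hedge (by positivity)
  have h3 : (B + L) * (s * P) ≤ ε₁ ^ 2 / 8 * s * (s * P) :=
    mul_le_mul_of_nonneg_right hsR hs0
  have h4 : L ≤ L * (s * P) := le_mul_of_one_le_right hL0 hsP
  have h6 : ε₁ ^ 2 / 8 * s * (s * P) = ε₁ ^ 2 / 2 * (s ^ 2 * P / 4) := by ring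
  have h7 : (B + L) * (s * P) = B * (s * P) + L * (s * P) := by ring
  linarith

theorem paramsH (k : ℕ) (ε₁ : ℝ) (hε : 0 < ε₁) : ∃ t u K : ℕ, 1 ≤ t ∧ 1 ≤ u ∧ 1 ≤ K ∧
    (K0 0 u : ℝ) / K ≤ ε₁ ∧ 2 * (CpN (2 ^ t * (k + 1) + 1) : ℝ) / u ≤ ε₁ ∧
    ((Wn (Finset (Fin t) × Option (Fin k)) (K * (2 ^ t * (k + 1)))).card : ℝ) *
      (4 * Real.exp (-(ε₁ ^ 2 / 2 * (edH t).card))) ≤ ε₁ := by
  obtain ⟨U, hU⟩ : ∃ U : ℝ, U = 2 * 10 ^ 6 * ((k : ℝ) + 3) ^ 2 / ε₁ + 2 := ⟨_, rfl⟩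
  have hU0 : 0 < U := by rw [hU]; positivity
  obtain ⟨a, ha⟩ : ∃ a : ℕ, a = ⌈U⌉₊ := ⟨_, rfl⟩
  have hUa : U ≤ a := by rw [ha]; exact Nat.le_ceil U
  obtain ⟨A, hA⟩ : ∃ A : ℝ, A = 8 * ((a : ℝ) + 10) / ε₁ + 3 := ⟨_, rfl⟩
  have hA0 : 0 < A := by rw [hA]; positivity
  obtain ⟨B, hB⟩ : ∃ B : ℝ, B = ((k : ℝ) + 2) * (3 + |Real.log A|) := ⟨_, rfl⟩
  have hB0 : 0 ≤ B := by rw [hB]; positivity
  obtain ⟨L, hL⟩ : ∃ L : ℝ, L = Real.log 4 + |Real.log ε₁| := ⟨_, rfl⟩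
  have hL0 : 0 ≤ L := by
    rw [hL]
    have : 0 ≤ Real.log 4 := Real.log_nonneg (by norm_num)
    positivity
  obtain ⟨s₀, hs₀⟩ := exists_nat_ge ((B + L) / (ε₁ ^ 2 / 8))
  obtain ⟨s, hs⟩ : ∃ s : ℕ, s = s₀ + 2 := ⟨_, rfl⟩
  have hs2 : 2 ≤ s := by omega
  have hsR : (B + L) ≤ ε₁ ^ 2 / 8 * s := by
    have h1 : B + L ≤ s₀ * (ε₁ ^ 2 / 8) := (div_le_iff₀ (by positivity)).1 hs₀
    have h2 : (s₀ : ℝ) ≤ s := by
      rw [hs]
      push_cast
      linarith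
    have h3 : (s₀ : ℝ) * (ε₁ ^ 2 / 8) ≤ s * (ε₁ ^ 2 / 8) :=
      mul_le_mul_of_nonneg_right h2 (by positivity)
    linarith
  have hs2r : (2 : ℝ) ≤ s := by exact_mod_cast hs2
  have hs1 : (1 : ℝ) ≤ s := by linarith
  -- `t + 1 = s ^ 2`
  obtain ⟨t, ht⟩ : ∃ t : ℕ, t + 1 = s ^ 2 := ⟨s ^ 2 - 1, by
    have : 1 ≤ s ^ 2 := Nat.one_le_pow _ _ (by omega)
    omega⟩
  have ht1 : 1 ≤ t := by
    have : 2 ^ 2 ≤ s ^ 2 := Nat.pow_le_pow_left hs2 2
    omega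
  have hts : (t : ℝ) + 1 = (s : ℝ) ^ 2 := by exact_mod_cast ht
  have ht0 : (0 : ℝ) ≤ t := Nat.cast_nonneg t
  obtain ⟨q, hq⟩ : ∃ q : ℕ, q = 2 ^ t := ⟨_, rfl⟩
  have hqpos : 1 ≤ q := by
    rw [hq]
    exact Nat.one_le_two_pow
  have hq1 : (1 : ℝ) ≤ q := by exact_mod_cast hqpos
  have hqq : (1 : ℝ) ≤ (q : ℝ) ^ 2 := by nlinarith
  obtain ⟨u, hu⟩ : ∃ u : ℕ, u = ⌈2 * (CpN (q * (k + 1) + 1) : ℝ) / ε₁⌉₊ + 1 := ⟨_, rfl⟩
  have hCp : (CpN (q * (k + 1) + 1) : ℝ) ≤ 10 ^ 6 * ((k : ℝ) + 3) ^ 2 * (q : ℝ) ^ 2 :=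
    h23_Cp k q hq1
  have hu1 : 2 * (CpN (q * (k + 1) + 1) : ℝ) / ε₁ ≤ u := by
    rw [hu]
    push_cast
    have := Nat.le_ceil (2 * (CpN (q * (k + 1) + 1) : ℝ) / ε₁)
    linarith
  have hu2 : (u : ℝ) ≤ U * (q : ℝ) ^ 2 := by
    have h1 : (⌈2 * (CpN (q * (k + 1) + 1) : ℝ) / ε₁⌉₊ : ℝ) <
        2 * (CpN (q * (k + 1) + 1) : ℝ) / ε₁ + 1 := Nat.ceil_lt_add_one (by positivity)
    have h2 : 2 * (CpN (q * (k + 1) + 1) : ℝ) / ε₁ ≤
        2 * 10 ^ 6 * ((k : ℝ) + 3) ^ 2 / ε₁ * (q : ℝ) ^ 2 := by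
      rw [div_mul_eq_mul_div]
      refine div_le_div_of_nonneg_right ?_ hε.le
      linarith
    rw [hu, hU]
    push_cast
    rw [add_mul]
    linarith
  have hulog : Nat.log 2 u ≤ a + 2 * t := by
    have h1 : u ≤ 2 ^ (a + 2 * t) := by
      have h2 : (u : ℝ) ≤ ((a * q ^ 2 : ℕ) : ℝ) := by
        push_cast
        exact hu2.trans (mul_le_mul_of_nonneg_right hUa (by positivity))
      have h3 : u ≤ a * q ^ 2 := by exact_mod_cast h2
      have h4 : a ≤ 2 ^ a := Nat.lt_two_pow_self.le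
      calc u ≤ a * q ^ 2 := h3
        _ ≤ 2 ^ a * q ^ 2 := Nat.mul_le_mul_right _ h4
        _ = 2 ^ (a + 2 * t) := by rw [hq]; ring
    calc Nat.log 2 u ≤ Nat.log 2 (2 ^ (a + 2 * t)) := Nat.log_mono_right h1
      _ = a + 2 * t := Nat.log_pow (by norm_num) _
  obtain ⟨K, hK⟩ : ∃ K : ℕ, K = ⌈(K0 0 u : ℝ) / ε₁⌉₊ + 1 := ⟨_, rfl⟩
  have hK0 : (K0 0 u : ℝ) ≤ 8 * ((a : ℝ) + 10) * (t + 1) := by
    unfold K0
    have h2 : Nat.log 2 (Nat.log 2 0 + 1) = 0 := by simp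
    rw [h2]
    push_cast
    have h3 : (Nat.log 2 u : ℝ) ≤ a + 2 * t := by exact_mod_cast hulog
    have h4 : (0 : ℝ) ≤ a := Nat.cast_nonneg a
    nlinarith [mul_nonneg h4 ht0]
  have hK1 : (K0 0 u : ℝ) / ε₁ ≤ K := by
    rw [hK]
    push_cast
    have := Nat.le_ceil ((K0 0 u : ℝ) / ε₁)
    linarith
  have hK2 : (K : ℝ) + 1 ≤ A * (t + 1) := by
    have h1 : (⌈(K0 0 u : ℝ) / ε₁⌉₊ : ℝ) < (K0 0 u : ℝ) / ε₁ + 1 :=
      Nat.ceil_lt_add_one (by positivity)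
    have h2 : (K0 0 u : ℝ) / ε₁ ≤ 8 * ((a : ℝ) + 10) / ε₁ * (t + 1) := by
      rw [div_mul_eq_mul_div]
      exact div_le_div_of_nonneg_right hK0 hε.le
    rw [hK, hA]
    push_cast
    rw [add_mul]
    linarith
  have hupos : 1 ≤ u := by omega
  have hKpos : 1 ≤ K := by omega
  have hu0 : (0 : ℝ) < u := by exact_mod_cast hupos
  have hKp0 : (0 : ℝ) < K := by exact_mod_cast hKpos
  refine ⟨t, u, K, ht1, hupos, hKpos, ?_, ?_, ?_⟩
  · rw [div_le_iff₀ hKp0]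
    rw [div_le_iff₀ hε] at hK1
    linarith
  · rw [div_le_iff₀ hu0, ← hq]
    rw [div_le_iff₀ hε] at hu1
    linarith
  · rw [← hq]
    have hcard : Fintype.card (Finset (Fin t) × Option (Fin k)) = q * (k + 1) := by
      rw [Fintype.card_prod, Fintype.card_finset, Fintype.card_fin, Fintype.card_option,
        Fintype.card_fin, hq]
    have h1 : ((Wn (Finset (Fin t) × Option (Fin k)) (K * (q * (k + 1)))).card : ℝ) ≤
        Real.exp ((((q * (k + 1) : ℕ) : ℝ) + 1) * (1 + Real.log (K + 1))) := by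
      refine le_trans ?_ (wCount (q * (k + 1)) K)
      exact_mod_cast h23_Wn _ _ hcard _
    have hlog : Real.log (K + 1) ≤ |Real.log A| + 2 * s := by
      have h2 : Real.log ((K : ℝ) + 1) ≤ Real.log (A * ((t : ℝ) + 1)) :=
        Real.log_le_log (by positivity) hK2
      have h3 : Real.log (A * ((t : ℝ) + 1)) = Real.log A + 2 * Real.log s := by
        rw [Real.log_mul hA0.ne' (by positivity), hts, Real.log_pow]
        push_cast
        ring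
      have h4 : Real.log (s : ℝ) ≤ s := (Real.log_le_sub_one_of_pos (by positivity)).trans
        (by linarith)
      rw [h3] at h2
      linarith [le_abs_self (Real.log A)]
    have hexp : (((q * (k + 1) : ℕ) : ℝ) + 1) * (1 + Real.log (K + 1)) ≤
        B * ((s : ℝ) * q) := by
      have h2 : (((q * (k + 1) : ℕ) : ℝ) + 1) ≤ ((k : ℝ) + 2) * q := by
        push_cast
        linarith
      have h3 : 1 + Real.log (K + 1) ≤ (3 + |Real.log A|) * s := by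
        have : |Real.log A| ≤ |Real.log A| * s := le_mul_of_one_le_right (abs_nonneg _) hs1
        nlinarith
      have h4 : 0 ≤ 1 + Real.log ((K : ℝ) + 1) := by
        have : 0 ≤ Real.log ((K : ℝ) + 1) := Real.log_nonneg (by linarith)
        linarith
      calc (((q * (k + 1) : ℕ) : ℝ) + 1) * (1 + Real.log (K + 1)) ≤
            (((k : ℝ) + 2) * q) * ((3 + |Real.log A|) * s) :=
            mul_le_mul h2 h3 h4 (by positivity)
        _ = B * ((s : ℝ) * q) := by rw [hB]; ring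
    have hedge : (s : ℝ) ^ 2 * (q : ℝ) / 4 ≤ ((edH t).card : ℝ) := by
      have h2 := h23_edH t
      rw [← hq] at h2
      have h3 : (t : ℝ) * q ≤ 2 * ((edH t).card : ℝ) := by exact_mod_cast h2
      have h5 : (s : ℝ) ^ 2 / 2 ≤ t := by
        have : (4 : ℝ) ≤ (s : ℝ) ^ 2 := by nlinarith
        linarith
      have h6 : (s : ℝ) ^ 2 / 2 * q ≤ t * q := mul_le_mul_of_nonneg_right h5 (by linarith)
      linarith
    have hfin : B * ((s : ℝ) * q) + Real.log 4 + -(ε₁ ^ 2 / 2 * (edH t).card) ≤ Real.log ε₁ := by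
      refine h23_fin B L ε₁ s q _ _ _ hs1 hq1 hL0 hsR hedge ?_
      rw [hL]
      linarith [neg_abs_le (Real.log ε₁)]
    calc ((Wn (Finset (Fin t) × Option (Fin k)) (K * (q * (k + 1)))).card : ℝ) *
          (4 * Real.exp (-(ε₁ ^ 2 / 2 * (edH t).card))) ≤
          Real.exp (B * ((s : ℝ) * q)) * (4 * Real.exp (-(ε₁ ^ 2 / 2 * (edH t).card))) :=
          mul_le_mul_of_nonneg_right (h1.trans (Real.exp_le_exp.2 hexp)) (by positivity)
      _ = Real.exp (B * ((s : ℝ) * q) + Real.log 4 + -(ε₁ ^ 2 / 2 * (edH t).card)) := by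
          rw [Real.exp_add, Real.exp_add, Real.exp_log (by norm_num : (0 : ℝ) < 4)]
          ring
      _ ≤ Real.exp (Real.log ε₁) := Real.exp_le_exp.2 hfin
      _ = ε₁ := Real.exp_log hε

end FR
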