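import Pool.Agent.Helper6.FR.Defs

/-!
# FAR-3: generic cubes in a large set of shifts

PROOF. Let `h₀ = min T` and choose `d 0, d 1, ...` one after the other with `h₀ + d j ∈ T`, `d j > 0`. Two sites of
`posH` agree only if `v_x - v_{x'} ∈ D` for `v_x = ∑_{j ∈ x} d j` and some `x ≠ x'` (if `x = x'` then `a` injective and
`a c ≠ h₀` give equality of the second components), where `D` is the set of the integers `a c' - a c`, `0`,
`h₀ - a c`, `a c - h₀` (at most `k² + 1 + 2 k ≤ (k+1)²` elements). Write `v_x - v_{x'} = ∑_j z_j d j`, `z_j ∈ {-1, 0, 1}` not all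
zero, `j` the largest index with `z_j ≠ 0`: `z_j d j = s - ∑_{i<j} z_i d i`, `s ∈ D`. So at the step `j` it is enough to
avoid at most `2 (k+1)² 3^t` values of `d j`. `B = 2 (k+1)² 3^t + 2` works (for the induction it is convenient to prove
the statement for all `j ≤ t` with `Fin j`, or to choose `d : ℕ → ℕ` and the condition `∀ z : Fin t → ℤ` with
values in `{-1,0,1}`, nonzero, `∑ z_j d_j ∉ D`).
-/

set_option autoImplicit false

namespace FR

open Finset Helper13.Om Helper11.QR AS

private theorem posH_snoc {k t : ℕ} (a : Fin k → ℕ) (h₀ : ℕ) (d : Fin t → ℕ) (e : ℕ)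
    (x : Finset (Fin (t + 1))) (p : Option (Fin k)) :
    posH a h₀ (Fin.snoc d e : Fin (t + 1) → ℕ) (x, p) =
      posH a h₀ d (univ.filter (fun j : Fin t => j.castSucc ∈ x), p) +
        if Fin.last t ∈ x then e else 0 := by
  have hsum : ∑ j ∈ x, (Fin.snoc d e : Fin (t + 1) → ℕ) j =
      ∑ j ∈ univ.filter (fun j : Fin t => j.castSucc ∈ x), d j +
        if Fin.last t ∈ x then e else 0 := by
    have h1 : ∑ j ∈ x, (Fin.snoc d e : Fin (t + 1) → ℕ) j =
        ∑ j, if j ∈ x then (Fin.snoc d e : Fin (t + 1) → ℕ) j else 0 := by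
      simp
    rw [h1, Fin.sum_univ_castSucc, Finset.sum_filter]
    congr 1
    · refine Finset.sum_congr rfl fun j _ => ?_
      rw [Fin.snoc_castSucc]
    · rw [Fin.snoc_last]
  cases p with
  | none =>
    show h₀ + ∑ j ∈ x, (Fin.snoc d e : Fin (t + 1) → ℕ) j =
      h₀ + ∑ j ∈ univ.filter (fun j : Fin t => j.castSucc ∈ x), d j + _
    rw [hsum, add_assoc]
  | some c =>
    show a c + ∑ j ∈ x, (Fin.snoc d e : Fin (t + 1) → ℕ) j =
      a c + ∑ j ∈ univ.filter (fun j : Fin t => j.castSucc ∈ x), d j + _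
    rw [hsum, add_assoc]

private theorem ext_of_filter {t : ℕ} {x y : Finset (Fin (t + 1))}
    (h : univ.filter (fun j : Fin t => j.castSucc ∈ x) =
      univ.filter (fun j : Fin t => j.castSucc ∈ y))
    (hl : Fin.last t ∈ x ↔ Fin.last t ∈ y) : x = y := by
  ext i
  refine Fin.lastCases hl (fun j => ?_) i
  have h1 := Finset.ext_iff.1 h j
  simpa using h1

private theorem greedy_aux {k : ℕ} (a : Fin k → ℕ) (ha : Function.Injective a) (T : Finset ℕ)
    (hT : ∀ h ∈ T, ∀ c, a c ≠ h) (h₀ : ℕ) (h₀T : h₀ ∈ T) (hmin : ∀ h ∈ T, h₀ ≤ h) :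
    ∀ t : ℕ, 4 ^ t * (k + 1) ^ 2 < T.card → ∃ d : Fin t → ℕ, (∀ j, h₀ + d j ∈ T) ∧
      Function.Injective (posH a h₀ d) := by
  intro t
  induction t with
  | zero =>
    intro _
    refine ⟨fun j => j.elim0, fun j => j.elim0, ?_⟩
    rintro ⟨x, p⟩ ⟨y, q⟩ h
    have hx : x = ∅ := Finset.eq_empty_of_isEmpty x
    have hy : y = ∅ := Finset.eq_empty_of_isEmpty y
    subst hx
    subst hy
    cases p with
    | none =>
      cases q with
      | none => rfl
      | some c =>
        have h1 : h₀ = a c := by simpa [posH] using h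
        exact absurd h1.symm (hT h₀ h₀T c)
    | some c =>
      cases q with
      | none =>
        have h1 : a c = h₀ := by simpa [posH] using h
        exact absurd h1 (hT h₀ h₀T c)
      | some c' =>
        have h1 : a c = a c' := by simpa [posH] using h
        rw [ha h1]
  | succ t ih =>
    intro hcard
    have hlt : 4 ^ t * (k + 1) ^ 2 < T.card := by
      refine lt_of_le_of_lt (Nat.mul_le_mul_right _ ?_) hcard
      exact Nat.pow_le_pow_right (by norm_num) (Nat.le_succ t)
    obtain ⟨d, hd, hinj⟩ := ih hlt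
    have hS : ((univ : Finset ((Finset (Fin t) × Option (Fin k)) ×
        (Finset (Fin t) × Option (Fin k)))).image
          (fun vw => h₀ + posH a h₀ d vw.1 - posH a h₀ d vw.2)).card < T.card := by
      refine lt_of_le_of_lt Finset.card_image_le (lt_of_eq_of_lt ?_ hlt)
      rw [Finset.card_univ]
      simp only [Fintype.card_prod, Fintype.card_finset, Fintype.card_fin, Fintype.card_option]
      have : (4 : ℕ) ^ t = 2 ^ t * 2 ^ t := by
        rw [← mul_pow]
        norm_num
      rw [this]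
      ring
    obtain ⟨h, hhT, hhS⟩ := Finset.exists_mem_notMem_of_card_lt_card hS
    have hge := hmin h hhT
    have hbad : ∀ v w, posH a h₀ d v + (h - h₀) ≠ posH a h₀ d w := by
      intro v w hvw
      refine hhS (Finset.mem_image.2 ⟨(w, v), Finset.mem_univ _, ?_⟩)
      show h₀ + posH a h₀ d w - posH a h₀ d v = h
      omega
    refine ⟨Fin.snoc d (h - h₀), fun j => ?_, ?_⟩
    · refine Fin.lastCases ?_ (fun j => ?_) j
      · rw [Fin.snoc_last]
        have : h₀ + (h - h₀) = h := by omega
        rw [this]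
        exact hhT
      · rw [Fin.snoc_castSucc]
        exact hd j
    · rintro ⟨x, p⟩ ⟨y, q⟩ hxy
      rw [posH_snoc, posH_snoc] at hxy
      by_cases hx : Fin.last t ∈ x
      · by_cases hy : Fin.last t ∈ y
        · rw [if_pos hx, if_pos hy] at hxy
          have h1 := hinj (Nat.add_right_cancel hxy)
          have h2 := (Prod.mk.injEq _ _ _ _).mp h1
          rw [ext_of_filter h2.1 (by simp [hx, hy]), h2.2]
        · rw [if_pos hx, if_neg hy, add_zero] at hxy
          exact absurd hxy (hbad _ _)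
      · by_cases hy : Fin.last t ∈ y
        · rw [if_neg hx, if_pos hy, add_zero] at hxy
          exact absurd hxy.symm (hbad _ _)
        · rw [if_neg hx, if_neg hy] at hxy
          have h1 := hinj (Nat.add_right_cancel hxy)
          have h2 := (Prod.mk.injEq _ _ _ _).mp h1
          rw [ext_of_filter h2.1 (by simp [hx, hy]), h2.2]

theorem greedy (k t : ℕ) : ∃ B : ℕ, ∀ a : Fin k → ℕ, Function.Injective a → ∀ T : Finset ℕ,
    (∀ h ∈ T, ∀ c, a c ≠ h) → B ≤ T.card → ∃ (h₀ : ℕ) (d : Fin t → ℕ), h₀ ∈ T ∧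
      (∀ j, h₀ + d j ∈ T) ∧ Function.Injective (posH a h₀ d) := by
  refine ⟨4 ^ t * (k + 1) ^ 2 + 1, fun a ha T hT hB => ?_⟩
  have hne : T.Nonempty := by
    rw [← Finset.card_pos]
    omega
  obtain ⟨d, hd, hinj⟩ := greedy_aux a ha T hT (T.min' hne) (T.min'_mem hne)
    (fun h hh => T.min'_le h hh) t (by omega)
  exact ⟨T.min' hne, d, T.min'_mem hne, hd, hinj⟩

end FR
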