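import Pool.Agent.Helper6.FR.F1Tail
import Pool.Agent.Helper6.FR.F2Par
import Pool.Agent.Helper6.FR.F3Greedy

/-!
# FAR-4: a cut small function has small correlations for all but boundedly many shifts

PROOF. As AS-13 (Helper6/AS/S13.lean). Without loss `ε ≤ 1`. `ε₁ = ε / 32`, `t, u, K` from `paramsH k ε₁`, `n = 2^t (k + 1)`,
`E = (edH t).card ≥ 1`, `S = K n`, `T = ε₁ E`, `x = ε₁`; `δ` with `2 E δ exp (ε₁ E) ≤ 1`; `B` from `greedy k t`. Given `H`:
`D = (t + 1) H`, `h` with `h ≥ D`, `h ≥ n + 2`, `4 (n+1)² / h ≤ ε₁`, `B' = h + S`, `τ = δ / (k + 1)`; `N` large for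
`siteBound` (`ι = Finset (Fin t) × Option (Fin k)`, card `n`), `lawClose h u 1 B' τ` (`d = 1`) and for the shift error below.
Suppose more than `B` bad shifts. `greedy` gives `h₀, d`. Put `s j = ±1` the sign of `Jm N a (h₀ + d j) (R (h₀ + d j))`,
`R' j = s j * R (h₀ + d j)`. For each edge `e = (x, j)`, with `v = ∑_{i ∈ x} d i`: the average over `m ≤ N` of
`R' j (Ω(m + v + a c))_c (Ω(m + v + h₀ + d j))` differs from `|Jm N a (h₀ + d j) ..| ≥ ε` by at most `2 v / N`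
(`sum_shift_le`), and `m + v + a c = m + posH a h₀ d (x, some c)`, `m + v + h₀ + d j = m + posH a h₀ d (insert j x, none)`.
So the average over `m` of `Z(m) = ∑_{e ∈ edH t} R' ..` is at least `E ε / 2` for large `N`. On the other hand
`|Z| ≤ T + E 1[T ≤ |Z|]`, so it is at most `ε₁ E + E prob_m (T ≤ |Z|)`, and by `siteBound` (`posH` injective,
`≤ (t + 1) H`) and `tailH`: `prob ≤ 3 ε₁ + card Wn * 4 exp (-ε₁² E / 2) ≤ 4 ε₁` (`2 exp (-ε₁ T) (exp (ε₁² E / 2) + E 2 δ exp (ε₁ E)) ≤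
4 exp (-ε₁² E / 2)`). Contradiction: `ε / 2 ≤ 5 ε₁`.
-/

set_option autoImplicit false

namespace FR

open Finset Helper13.Om Helper11.QR AS

/-- the cube sum -/
private noncomputable def ZH {k t : ℕ} (R : Fin t → (Fin k → ℕ) → ℕ → ℝ)
    (ℓ : Finset (Fin t) × Option (Fin k) → ℕ) : ℝ :=
  ∑ e ∈ edH t, R e.2 (fun c => ℓ (e.1, some c)) (ℓ (insert e.2 e.1, none))

private lemma zh_abs {k t : ℕ} (R : Fin t → (Fin k → ℕ) → ℕ → ℝ) (hR : ∀ j y x, |R j y x| ≤ 1)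
    (ℓ : Finset (Fin t) × Option (Fin k) → ℕ) : |ZH R ℓ| ≤ (edH t).card := by
  unfold ZH
  refine (Finset.abs_sum_le_sum_abs _ _).trans ?_
  refine (Finset.sum_le_sum fun e _ => hR _ _ _).trans (le_of_eq ?_)
  simp

private lemma zh_mean {k t N : ℕ} (hN : 1 ≤ N) (R : Fin t → (Fin k → ℕ) → ℕ → ℝ)
    (hR : ∀ j y x, |R j y x| ≤ 1) (q : Finset (Fin t) × Option (Fin k) → ℕ) (T : ℝ) (hT : 0 ≤ T) :
    1 / (N : ℝ) * ∑ m ∈ Finset.Icc 1 N,
      ZH R (fun v => ArithmeticFunction.cardFactors (m + q v)) ≤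
      T + (edH t).card * (1 / (N : ℝ) * ∑ m ∈ Finset.Icc 1 N,
        (fun ℓ : Finset (Fin t) × Option (Fin k) → ℕ => if T ≤ |ZH R ℓ| then (1 : ℝ) else 0)
          (fun v => ArithmeticFunction.cardFactors (m + q v))) := by
  have hNr : (0 : ℝ) < N := by exact_mod_cast hN
  have h1 : ∑ m ∈ Finset.Icc 1 N,
      ZH R (fun v => ArithmeticFunction.cardFactors (m + q v)) ≤
      ∑ m ∈ Finset.Icc 1 N, (T + (edH t).card *
      (fun ℓ : Finset (Fin t) × Option (Fin k) → ℕ => if T ≤ |ZH R ℓ| then (1 : ℝ) else 0)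
      (fun v => ArithmeticFunction.cardFactors (m + q v))) := by
    refine Finset.sum_le_sum fun m _ => ?_
    simp only
    split_ifs with h2
    · rw [mul_one]
      exact (le_abs_self _).trans ((zh_abs R hR _).trans (by linarith))
    · rw [mul_zero, add_zero]
      exact (le_abs_self _).trans (not_le.1 h2).le
  refine (mul_le_mul_of_nonneg_left h1 (by positivity)).trans (le_of_eq ?_)
  rw [Finset.sum_add_distrib, ← Finset.mul_sum, Finset.sum_const, Nat.card_Icc,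
    Nat.add_sub_cancel, nsmul_eq_mul]
  field_simp

/-- the average over one edge -/
private lemma edge_mean {k t N : ℕ} (hN : 1 ≤ N) (a : Fin k → ℕ) (h₀ : ℕ) (d : Fin t → ℕ)
    (F : (Fin k → ℕ) → ℕ → ℝ) (hF : ∀ y x, |F y x| ≤ 1) (x : Finset (Fin t)) (j : Fin t)
    (hj : j ∉ x) :
    Jm N a (h₀ + d j) F - 2 * ((∑ i ∈ x, d i : ℕ) : ℝ) / N ≤
      1 / (N : ℝ) * ∑ m ∈ Finset.Icc 1 N,
        F (fun c => ArithmeticFunction.cardFactors (m + posH a h₀ d (x, some c)))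
          (ArithmeticFunction.cardFactors (m + posH a h₀ d (insert j x, none))) := by
  have hNr : (0 : ℝ) < N := by exact_mod_cast hN
  have h1 := sum_shift_le (fun m => F (fun c => ArithmeticFunction.cardFactors (m + a c))
    (ArithmeticFunction.cardFactors (m + (h₀ + d j)))) (fun m => hF _ _) N (∑ i ∈ x, d i)
  have h2 : ∀ m : ℕ, F (fun c => ArithmeticFunction.cardFactors (m + posH a h₀ d (x, some c)))
      (ArithmeticFunction.cardFactors (m + posH a h₀ d (insert j x, none))) =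
      F (fun c => ArithmeticFunction.cardFactors (m + (∑ i ∈ x, d i) + a c))
        (ArithmeticFunction.cardFactors (m + (∑ i ∈ x, d i) + (h₀ + d j))) := by
    intro m
    have h3 : ∀ c, m + posH a h₀ d (x, some c) = m + (∑ i ∈ x, d i) + a c := by
      intro c
      change m + (a c + ∑ i ∈ x, d i) = _
      omega
    have h4 : m + posH a h₀ d (insert j x, (none : Option (Fin k))) =
        m + (∑ i ∈ x, d i) + (h₀ + d j) := by
      change m + (h₀ + ∑ i ∈ insert j x, d i) = _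
      rw [Finset.sum_insert hj]
      omega
    simp only [h3, h4]
  simp only [h2]
  unfold Jm
  have h5 := (abs_le.1 h1).1
  have h6 : 1 / (N : ℝ) * (∑ m ∈ Finset.Icc 1 N,
      F (fun c => ArithmeticFunction.cardFactors (m + a c))
        (ArithmeticFunction.cardFactors (m + (h₀ + d j))) - 2 * ((∑ i ∈ x, d i : ℕ) : ℝ)) ≤
      1 / (N : ℝ) * ∑ m ∈ Finset.Icc 1 N,
        F (fun c => ArithmeticFunction.cardFactors (m + (∑ i ∈ x, d i) + a c))
        (ArithmeticFunction.cardFactors (m + (∑ i ∈ x, d i) + (h₀ + d j))) := by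
    refine mul_le_mul_of_nonneg_left ?_ (by positivity)
    linarith
  refine le_trans (le_of_eq ?_) h6
  ring

theorem fewBad (k : ℕ) (ε : ℝ) (hε : 0 < ε) : ∃ δ : ℝ, 0 < δ ∧ ∃ B : ℕ, ∀ H : ℕ, ∃ N0 : ℕ,
    ∀ N : ℕ, N0 ≤ N → ∀ a : Fin k → ℕ, Function.Injective a → (∀ c, a c < H) →
    ∀ R : ℕ → (Fin k → ℕ) → ℕ → ℝ, (∀ h y x, |R h y x| ≤ 1) → (∀ h, CutM k N δ (R h)) →
      ((range H).filter (fun h => (∀ c, a c ≠ h) ∧ ε ≤ |Jm N a h (R h)|)).card ≤ B := by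
  classical
  obtain ⟨ε₁, hε₁⟩ : ∃ ε₁ : ℝ, ε₁ = ε / 32 := ⟨_, rfl⟩
  have hε₁0 : 0 < ε₁ := by rw [hε₁]; positivity
  obtain ⟨t, u, K, ht, hu, hK, hp1, hp2, hp3⟩ := paramsH k ε₁ hε₁0
  obtain ⟨M, hM⟩ : ∃ M : ℕ, M = (edH t).card := ⟨_, rfl⟩
  have hM1 : 1 ≤ M := by
    rw [hM, Nat.one_le_iff_ne_zero, Finset.card_ne_zero]
    refine ⟨(∅, ⟨0, by omega⟩), ?_⟩
    unfold edH
    simp
  have hMr : (1 : ℝ) ≤ M := by exact_mod_cast hM1
  obtain ⟨n, hn⟩ : ∃ n : ℕ, n = 2 ^ t * (k + 1) := ⟨_, rfl⟩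
  have hcard : Fintype.card (Finset (Fin t) × Option (Fin k)) = n := by
    rw [hn]
    simp
  have hn1 : 1 ≤ n := by
    rw [hn]
    exact Nat.mul_pos (by positivity) (by omega)
  obtain ⟨δ, hδ⟩ : ∃ δ : ℝ, δ = 1 / (2 * M * Real.exp (ε₁ * M)) := ⟨_, rfl⟩
  have hδ0 : 0 < δ := by rw [hδ]; positivity
  have hδ1 : (M : ℝ) * (δ + δ) * Real.exp (ε₁ * M) = 1 := by
    rw [hδ]
    field_simp
    norm_num
  obtain ⟨B, hB⟩ := greedy k t
  refine ⟨δ, hδ0, B, ?_⟩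
  intro H
  obtain ⟨h, hh1, hh2, hh3⟩ : ∃ h : ℕ, n + 2 ≤ h ∧ (t + 1) * H ≤ h ∧
      4 * ((n + 1 : ℕ) : ℝ) ^ 2 / h ≤ ε₁ := by
    obtain ⟨h0, hh0⟩ := exists_nat_ge (4 * ((n + 1 : ℕ) : ℝ) ^ 2 / ε₁)
    refine ⟨h0 + n + 2 + (t + 1) * H, by omega, by omega, ?_⟩
    have h1 : (h0 : ℝ) ≤ ((h0 + n + 2 + (t + 1) * H : ℕ) : ℝ) := by
      exact_mod_cast (by omega : h0 ≤ h0 + n + 2 + (t + 1) * H)
    have h2 := hh0.trans h1
    have h3 : (0 : ℝ) < ((h0 + n + 2 + (t + 1) * H : ℕ) : ℝ) := by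
      exact_mod_cast (by omega : 0 < h0 + n + 2 + (t + 1) * H)
    rw [div_le_iff₀ hε₁0] at h2
    rw [div_le_iff₀ h3]
    linarith
  obtain ⟨N1, hN1⟩ := siteBound (Finset (Fin t) × Option (Fin k)) (by rw [hcard]; exact hn1)
    u K h ((t + 1) * H) hu hK (by rw [hcard]; exact hh1) hh2
  obtain ⟨N2, hN2⟩ := lawClose h u 1 (h + K * n) hu le_rfl (δ / (k + 1)) (by positivity)
  obtain ⟨N3, hN3⟩ := exists_nat_ge (4 * ((t * H : ℕ) : ℝ) / ε)
  refine ⟨N1 + N2 + N3 + 1, ?_⟩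
  intro N hN a ha haH R hR hcut
  have hN1' : 1 ≤ N := by omega
  have hNr : (0 : ℝ) < N := by exact_mod_cast hN1'
  obtain ⟨L, hL⟩ : ∃ L : ℕ, L = (PP h (Nat.log 2 N / u)).card := ⟨_, rfl⟩
  have hLL : (PP h (Nat.log 2 N / u)).card ≤ L + 1 := by omega
  obtain ⟨T, hT⟩ : ∃ T : ℝ, T = ε₁ * M := ⟨_, rfl⟩
  have hT0 : 0 ≤ T := by rw [hT]; positivity
  by_contra hcon
  rw [not_le] at hcon
  obtain ⟨h₀, d, hh0, hd, hinj⟩ := hB a ha _ (by
    intro h hh c
    exact (Finset.mem_filter.1 hh).2.1 c) hcon.le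
  have hh0' := Finset.mem_range.1 (Finset.mem_filter.1 hh0).1
  have hdH : ∀ j, h₀ + d j < H := fun j => Finset.mem_range.1 (Finset.mem_filter.1 (hd j)).1
  have hbig : ∀ j, ε ≤ |Jm N a (h₀ + d j) (R (h₀ + d j))| :=
    fun j => (Finset.mem_filter.1 (hd j)).2.2
  have hvx : ∀ x : Finset (Fin t), ∑ i ∈ x, d i ≤ t * H := by
    intro x
    calc ∑ i ∈ x, d i ≤ ∑ i : Fin t, d i := Finset.sum_le_univ_sum_of_nonneg fun _ => Nat.zero_le _
      _ ≤ ∑ _i : Fin t, H := Finset.sum_le_sum fun i _ => by have := hdH i; omega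
      _ = t * H := by simp
  -- signs
  obtain ⟨s, hs⟩ : ∃ s : Fin t → ℝ, ∀ j, |s j| = 1 ∧
      s j * Jm N a (h₀ + d j) (R (h₀ + d j)) = |Jm N a (h₀ + d j) (R (h₀ + d j))| := by
    refine ⟨fun j => if 0 ≤ Jm N a (h₀ + d j) (R (h₀ + d j)) then 1 else -1, fun j => ?_⟩
    by_cases hJ : 0 ≤ Jm N a (h₀ + d j) (R (h₀ + d j))
    · simp only [if_pos hJ]
      refine ⟨by norm_num, ?_⟩
      rw [one_mul, abs_of_nonneg hJ]
    · simp only [if_neg hJ]
      refine ⟨by norm_num, ?_⟩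
      rw [abs_of_neg (not_le.1 hJ)]
      ring
  obtain ⟨R', hR'⟩ : ∃ R' : Fin t → (Fin k → ℕ) → ℕ → ℝ,
      R' = fun j y x => s j * R (h₀ + d j) y x := ⟨_, rfl⟩
  have hR1 : ∀ j y x, |R' j y x| ≤ 1 := by
    intro j y x
    rw [hR', abs_mul, (hs j).1, one_mul]
    exact hR _ _ _
  have hcut' : ∀ j, CutM k N δ (R' j) := by
    intro j g f hg hf
    have h1 := hcut (h₀ + d j) (fun y => s j * g y) f (fun y => by
      rw [abs_mul, (hs j).1, one_mul]
      exact hg y) hf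
    refine le_trans (le_of_eq ?_) h1
    congr 2
    funext ℓ
    rw [hR']
    ring
  have hJm : ∀ j, Jm N a (h₀ + d j) (R' j) = |Jm N a (h₀ + d j) (R (h₀ + d j))| := by
    intro j
    rw [← (hs j).2, hR']
    unfold Jm
    rw [← Finset.mul_sum]
    ring
  -- lower bound
  have hlow : (M : ℝ) * (ε / 2) ≤ 1 / (N : ℝ) * ∑ m ∈ Finset.Icc 1 N,
      ZH R' (fun v => ArithmeticFunction.cardFactors (m + posH a h₀ d v)) := by
    unfold ZH
    rw [Finset.sum_comm, Finset.mul_sum, hM, ← nsmul_eq_mul, ← Finset.sum_const]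
    refine Finset.sum_le_sum fun e he => ?_
    have hj : e.2 ∉ e.1 := by
      unfold edH at he
      exact (Finset.mem_filter.1 he).2
    refine le_trans ?_ (edge_mean hN1' a h₀ d (R' e.2) (hR1 e.2) e.1 e.2 hj)
    rw [hJm]
    have h1 := hbig e.2
    have h2 : 2 * ((∑ i ∈ e.1, d i : ℕ) : ℝ) / N ≤ ε / 2 := by
      rw [div_le_iff₀ hNr]
      have h3 : (N3 : ℝ) ≤ N := by exact_mod_cast (by omega : N3 ≤ N)
      have h4 := hN3.trans h3
      rw [div_le_iff₀ hε] at h4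
      have h5 : ((∑ i ∈ e.1, d i : ℕ) : ℝ) ≤ ((t * H : ℕ) : ℝ) := by exact_mod_cast hvx e.1
      linarith
    linarith
  -- upper bound
  have hup := zh_mean hN1' R' hR1 (posH a h₀ d) T hT0
  have hle : ∀ v, posH a h₀ d v ≤ (t + 1) * H := by
    rintro ⟨x, c⟩
    have h1 := hvx x
    have h2 : (t + 1) * H = t * H + H := by ring
    cases c with
    | none =>
      change h₀ + ∑ i ∈ x, d i ≤ _
      omega
    | some c =>
      change a c + ∑ i ∈ x, d i ≤ _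
      have := haH c
      omega
  have hprob := hN1 N (by omega) L hLL (posH a h₀ d) hinj hle
    (fun ℓ => if T ≤ |ZH R' ℓ| then (1 : ℝ) else 0)
    (fun ℓ => if ∃ w ∈ Wn (Finset (Fin t) × Option (Fin k)) (K * n), T ≤
      |ZH R' (fun v => ℓ v + w v)| then (1 : ℝ) else 0)
    (fun ℓ => by split_ifs <;> norm_num)
    (fun ℓ => by split_ifs <;> norm_num)
    (fun ℓ w hw => by
      rw [hcard] at hw
      by_cases h4 : T ≤ |ZH R' (fun i => ℓ i + w i)|
      · rw [if_pos h4, if_pos ⟨w, hw, h4⟩]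
      · rw [if_neg h4]
        split_ifs <;> norm_num)
  rw [hcard] at hprob
  have hmod : ∀ a₀ : ℕ, EE (fun _ : Finset (Fin t) × Option (Fin k) =>
      sg (PP h (Nat.log 2 N / u)) L)
      (fun ℓ => (fun ℓ : Finset (Fin t) × Option (Fin k) → ℕ =>
        if ∃ w ∈ Wn (Finset (Fin t) × Option (Fin k)) (K * n), T ≤
        |ZH R' (fun v => ℓ v + w v)| then (1 : ℝ) else 0)
        (fun i => (ℓ i : ℕ) + sm h (a₀ + posH a h₀ d i))) ≤ ε₁ := by
    intro a₀
    have h1 := tailH k t L N h a₀ (K * n) (h + K * n) hN1' (PP h (Nat.log 2 N / u))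
      (fun p hp => ((mem_PP _ _ _).1 hp).2.1) hLL R' hR1 δ (δ / (k + 1)) hδ0.le (by positivity)
      hcut' (by
        intro b hb b' hb' f hf
        have h2 := hN2 N (by omega) 1 le_rfl le_rfl b hb b' hb' f hf
        rw [Nat.div_one] at h2
        exact h2) le_rfl (posH a h₀ d) T ε₁ hε₁0.le
    refine (le_of_eq ?_).trans (h1.trans ?_)
    · rfl
    · rw [← hM]
      have h3 : ((k + 1 : ℕ) : ℝ) * (δ / (k + 1)) = δ := by
        push_cast
        field_simp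
      rw [h3, hδ1, hT]
      have h4 : (1 : ℝ) ≤ Real.exp (ε₁ ^ 2 / 2 * M) := Real.one_le_exp (by positivity)
      have h5 : 2 * Real.exp (-(ε₁ * (ε₁ * M))) * (Real.exp (ε₁ ^ 2 / 2 * M) + 1) ≤
          4 * Real.exp (-(ε₁ ^ 2 / 2 * M)) := by
        have h6 : Real.exp (-(ε₁ * (ε₁ * M))) * Real.exp (ε₁ ^ 2 / 2 * M) =
            Real.exp (-(ε₁ ^ 2 / 2 * M)) := by
          rw [← Real.exp_add]
          congr 1
          ring
        have h7 : Real.exp (-(ε₁ * (ε₁ * M))) * 1 ≤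
            Real.exp (-(ε₁ * (ε₁ * M))) * Real.exp (ε₁ ^ 2 / 2 * M) :=
          mul_le_mul_of_nonneg_left h4 (Real.exp_pos _).le
        nlinarith
      refine (mul_le_mul_of_nonneg_left h5 (Nat.cast_nonneg _)).trans ?_
      rw [← hn, ← hM] at hp3
      exact hp3
  have hmodavg : 1 / (h.factorial : ℝ) * ∑ a₀ ∈ Finset.range h.factorial,
      EE (fun _ : Finset (Fin t) × Option (Fin k) =>
      sg (PP h (Nat.log 2 N / u)) L)
      (fun ℓ => (fun ℓ : Finset (Fin t) × Option (Fin k) → ℕ =>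
        if ∃ w ∈ Wn (Finset (Fin t) × Option (Fin k)) (K * n), T ≤
        |ZH R' (fun v => ℓ v + w v)| then (1 : ℝ) else 0)
        (fun i => (ℓ i : ℕ) + sm h (a₀ + posH a h₀ d i))) ≤ ε₁ := by
    have h5 : (0 : ℝ) < h.factorial := by exact_mod_cast Nat.factorial_pos h
    refine (mul_le_mul_of_nonneg_left (Finset.sum_le_sum fun a₀ _ => hmod a₀)
      (by positivity)).trans (le_of_eq ?_)
    rw [Finset.sum_const, Finset.card_range, nsmul_eq_mul]
    field_simp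
  rw [← hn] at hp2
  have hp : 1 / (N : ℝ) * ∑ m ∈ Finset.Icc 1 N,
        (fun ℓ : Finset (Fin t) × Option (Fin k) → ℕ => if T ≤ |ZH R' ℓ| then (1 : ℝ) else 0)
          (fun v => ArithmeticFunction.cardFactors (m + posH a h₀ d v)) ≤ 4 * ε₁ := by
    refine hprob.trans ?_
    linarith
  rw [← hM] at hup
  have h6 := mul_le_mul_of_nonneg_left hp (by positivity : (0 : ℝ) ≤ M)
  have h7 : (M : ℝ) * (ε / 2) ≤ M * (5 * ε₁) := by
    refine hlow.trans (hup.trans ?_)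
    linarith [hT]
  have h8 := le_of_mul_le_mul_left h7 (by linarith)
  rw [hε₁] at h8
  linarith

end FR
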