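import Pool.Agent.Helper6.FR.Defs
import Pool.Agent.Helper6.DG.FinalN

/-!
# FAR-5: Bessel inequality and the two-point theorem

PROOF.
* `bessel`: with signs `s h`, `∑_{h ∈ T} |c_h| = (1/M) ∑_n G n * ∑_h s h ψ°_h(n)` and Cauchy-Schwarz: the square is at most
 `(1/M) ∑_n (∑_h s h ψ°_h(n))²`, expand; the diagonal terms are at most `4` each (`|ψ°| ≤ 2`).
* `pairs`: for each of the finitely many pairs `h ≠ h'` in `range H` use `DG.twoSet_holds H (min) (max)` for the function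
 `F l = ψ h (l h) * ψ h' (l h')` (it does not depend on the other coordinates, `SlowOutS` holds with any `δ`), with
 `η / (2 H²)`: `∑_M (1/M) |E ψ_h(Ω(n+h)) ψ_h'(Ω(n+h')) - Mn M (ψ h) * Mn M (ψ h')| ≤ ..` (`EpD H M F` factorises). The centred
 correlation differs from this difference by `|Mn M (ψ h)| |E ψ_h'(Ω(n+h')) - Mn M (ψ h')| + ..`, at most `4 H / M`
 (`sum_shift_le`), and `∑_M (1/M) (4 H / M) ≤ 8 H ≤ (η/2) log K / H²` for `K ≥ K0`.
-/

set_option autoImplicit false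

namespace FR

open Finset Helper13.Om Helper11.QR AS

/-- `ψ (Ω(n + h)) - E_{m ≤ M} ψ(Ω(m))` -/
noncomputable def cen (M : ℕ) (ψ : ℕ → ℝ) (n : ℕ) : ℝ :=
  ψ (ArithmeticFunction.cardFactors n) - DG.Mn M ψ

private theorem fb_mn (M : ℕ) {ψ : ℕ → ℝ} (hψ : ∀ x, |ψ x| ≤ 1) : |DG.Mn M ψ| ≤ 1 := by
  rcases Nat.eq_zero_or_pos M with rfl | hM
  · simp [DG.Mn]
  have hM' : (0 : ℝ) < M := by exact_mod_cast hM
  rw [DG.Mn, abs_mul, abs_of_nonneg (by positivity : (0 : ℝ) ≤ 1 / (M : ℝ))]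
  have h1 : |∑ n ∈ Icc 1 M, ψ (ArithmeticFunction.cardFactors n)| ≤ M := by
    refine (Finset.abs_sum_le_sum_abs _ _).trans ?_
    refine (Finset.sum_le_sum fun n _ => hψ (ArithmeticFunction.cardFactors n)).trans ?_
    simp
  calc 1 / (M : ℝ) * |∑ n ∈ Icc 1 M, ψ (ArithmeticFunction.cardFactors n)| ≤ 1 / (M : ℝ) * M :=
        mul_le_mul_of_nonneg_left h1 (by positivity)
    _ = 1 := by field_simp

private theorem fb_cen (M : ℕ) {ψ : ℕ → ℝ} (hψ : ∀ x, |ψ x| ≤ 1) (n : ℕ) : |cen M ψ n| ≤ 2 := by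
  have h1 := fb_mn M hψ
  have h2 := hψ (ArithmeticFunction.cardFactors n)
  rw [cen]
  refine (abs_sub _ _).trans ?_
  linarith

theorem bessel (M : ℕ) (G : ℕ → ℝ) (hG : ∀ n, |G n| ≤ 1) (ψ : ℕ → ℕ → ℝ)
    (hψ : ∀ h x, |ψ h x| ≤ 1) (T : Finset ℕ) :
    (∑ h ∈ T, |1 / (M : ℝ) * ∑ n ∈ Icc 1 M, G n * cen M (ψ h) (n + h)|) ^ 2 ≤
      4 * T.card + ∑ p ∈ (T ×ˢ T).filter (fun p => p.1 ≠ p.2),
        |1 / (M : ℝ) * ∑ n ∈ Icc 1 M, cen M (ψ p.1) (n + p.1) * cen M (ψ p.2) (n + p.2)| := by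
  classical
  have hcen : ∀ h n, |cen M (ψ h) n| ≤ 2 := fun h n => fb_cen M (hψ h) n
  generalize hc : (fun h n => cen M (ψ h) (n + h)) = c at *
  have hc' : ∀ h n, cen M (ψ h) (n + h) = c h n := fun h n => by rw [← hc]
  simp only [hc']
  have hcb : ∀ h n, |c h n| ≤ 2 := fun h n => by rw [← hc' h n]; exact hcen h (n + h)
  have hR : 0 ≤ 4 * (T.card : ℝ) + ∑ p ∈ (T ×ˢ T).filter (fun p => p.1 ≠ p.2),
      |1 / (M : ℝ) * ∑ n ∈ Icc 1 M, c p.1 n * c p.2 n| :=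
    add_nonneg (by positivity) (Finset.sum_nonneg fun p _ => abs_nonneg _)
  rcases Nat.eq_zero_or_pos M with rfl | hM
  · refine le_trans (le_of_eq ?_) hR
    simp
  have hM' : (0 : ℝ) < M := by exact_mod_cast hM
  -- signs
  have hs : ∀ h, ∃ s : ℝ, s ^ 2 ≤ 1 ∧ |1 / (M : ℝ) * ∑ n ∈ Icc 1 M, G n * c h n| =
      s * (1 / (M : ℝ) * ∑ n ∈ Icc 1 M, G n * c h n) := by
    intro h
    rcases le_total 0 (1 / (M : ℝ) * ∑ n ∈ Icc 1 M, G n * c h n) with h1 | h1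
    · exact ⟨1, by norm_num, by rw [abs_of_nonneg h1, one_mul]⟩
    · exact ⟨-1, by norm_num, by rw [abs_of_nonpos h1]; ring⟩
  choose s hs1 hs2 using hs
  have hsabs : ∀ h, |s h| ≤ 1 := fun h => by
    rw [← sq_le_one_iff_abs_le_one]
    exact hs1 h
  have h1 : ∑ h ∈ T, |1 / (M : ℝ) * ∑ n ∈ Icc 1 M, G n * c h n| =
      1 / (M : ℝ) * ∑ n ∈ Icc 1 M, G n * ∑ h ∈ T, s h * c h n := by
    rw [Finset.sum_congr rfl fun h _ => hs2 h]
    rw [Finset.mul_sum]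
    simp only [Finset.mul_sum]
    rw [Finset.sum_comm]
    refine Finset.sum_congr rfl fun n _ => Finset.sum_congr rfl fun h _ => ?_
    ring
  have h2 : (∑ n ∈ Icc 1 M, G n * ∑ h ∈ T, s h * c h n) ^ 2 ≤
      M * ∑ n ∈ Icc 1 M, (∑ h ∈ T, s h * c h n) ^ 2 := by
    refine (Finset.sum_mul_sq_le_sq_mul_sq _ _ _).trans ?_
    refine mul_le_mul_of_nonneg_right ?_ (Finset.sum_nonneg fun n _ => sq_nonneg _)
    calc ∑ n ∈ Icc 1 M, G n ^ 2 ≤ ∑ n ∈ Icc 1 M, (1 : ℝ) :=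
          Finset.sum_le_sum fun n _ => by
            have := (sq_le_one_iff_abs_le_one (G n)).2 (hG n)
            exact this
      _ = M := by simp
  have h3 : (∑ h ∈ T, |1 / (M : ℝ) * ∑ n ∈ Icc 1 M, G n * c h n|) ^ 2 ≤
      1 / (M : ℝ) * ∑ n ∈ Icc 1 M, (∑ h ∈ T, s h * c h n) ^ 2 := by
    rw [h1, mul_pow]
    calc (1 / (M : ℝ)) ^ 2 * (∑ n ∈ Icc 1 M, G n * ∑ h ∈ T, s h * c h n) ^ 2 ≤
          (1 / (M : ℝ)) ^ 2 * (M * ∑ n ∈ Icc 1 M, (∑ h ∈ T, s h * c h n) ^ 2) :=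
          mul_le_mul_of_nonneg_left h2 (by positivity)
      _ = 1 / (M : ℝ) * ∑ n ∈ Icc 1 M, (∑ h ∈ T, s h * c h n) ^ 2 := by
          field_simp
  have h4 : 1 / (M : ℝ) * ∑ n ∈ Icc 1 M, (∑ h ∈ T, s h * c h n) ^ 2 =
      ∑ p ∈ T ×ˢ T, s p.1 * s p.2 * (1 / (M : ℝ) * ∑ n ∈ Icc 1 M, c p.1 n * c p.2 n) := by
    have h5 : ∀ n, (∑ h ∈ T, s h * c h n) ^ 2 =
        ∑ p ∈ T ×ˢ T, s p.1 * s p.2 * (c p.1 n * c p.2 n) := by
      intro n
      rw [sq, Finset.sum_mul_sum, Finset.sum_product]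
      refine Finset.sum_congr rfl fun h _ => Finset.sum_congr rfl fun h' _ => ?_
      ring
    rw [Finset.sum_congr rfl fun n _ => h5 n, Finset.sum_comm, Finset.mul_sum]
    refine Finset.sum_congr rfl fun p _ => ?_
    rw [← Finset.mul_sum]
    ring
  rw [h4] at h3
  refine h3.trans ?_
  have habs : ∀ p : ℕ × ℕ, s p.1 * s p.2 * (1 / (M : ℝ) * ∑ n ∈ Icc 1 M, c p.1 n * c p.2 n) ≤
      |1 / (M : ℝ) * ∑ n ∈ Icc 1 M, c p.1 n * c p.2 n| := by
    intro p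
    refine (le_abs_self _).trans ?_
    rw [abs_mul, abs_mul]
    have h6 : |s p.1| * |s p.2| ≤ 1 := mul_le_one₀ (hsabs _) (abs_nonneg _) (hsabs _)
    calc |s p.1| * |s p.2| * |1 / (M : ℝ) * ∑ n ∈ Icc 1 M, c p.1 n * c p.2 n| ≤
          1 * |1 / (M : ℝ) * ∑ n ∈ Icc 1 M, c p.1 n * c p.2 n| :=
          mul_le_mul_of_nonneg_right h6 (abs_nonneg _)
      _ = _ := one_mul _
  refine (Finset.sum_le_sum fun p _ => habs p).trans ?_
  rw [← Finset.sum_filter_add_sum_filter_not (T ×ˢ T) (fun p => p.1 ≠ p.2), add_comm]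
  refine add_le_add ?_ le_rfl
  have hdiag : ∀ p ∈ (T ×ˢ T).filter (fun p => ¬ p.1 ≠ p.2),
      |1 / (M : ℝ) * ∑ n ∈ Icc 1 M, c p.1 n * c p.2 n| ≤ 4 := by
    intro p _
    rw [abs_mul, abs_of_nonneg (by positivity : (0 : ℝ) ≤ 1 / (M : ℝ))]
    have h6 : |∑ n ∈ Icc 1 M, c p.1 n * c p.2 n| ≤ 4 * M := by
      refine (Finset.abs_sum_le_sum_abs _ _).trans ?_
      refine (Finset.sum_le_sum (g := fun _ => (4 : ℝ)) fun n _ => ?_).trans ?_
      · rw [abs_mul]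
        calc |c p.1 n| * |c p.2 n| ≤ 2 * 2 :=
              mul_le_mul (hcb _ _) (hcb _ _) (abs_nonneg _) (by norm_num)
          _ = 4 := by norm_num
      · simp [mul_comm]
    calc 1 / (M : ℝ) * |∑ n ∈ Icc 1 M, c p.1 n * c p.2 n| ≤ 1 / (M : ℝ) * (4 * M) :=
          mul_le_mul_of_nonneg_left h6 (by positivity)
      _ = 4 := by field_simp
  refine (Finset.sum_le_sum hdiag).trans ?_
  rw [Finset.sum_const, nsmul_eq_mul, mul_comm]
  refine mul_le_mul_of_nonneg_left ?_ (by norm_num)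
  have hcard : ((T ×ˢ T).filter (fun p => ¬ p.1 ≠ p.2)).card ≤ T.card := by
    refine Finset.card_le_card_of_injOn (fun p => p.1) ?_ ?_
    · intro p hp
      simp only [Finset.coe_filter, Finset.mem_product, Set.mem_ofPred_eq] at hp
      exact hp.1.1
    · intro p hp q hq hpq
      simp only [Finset.coe_filter, Finset.mem_product, Set.mem_ofPred_eq, not_not] at hp hq
      simp only at hpq
      ext
      · exact hpq
      · rw [← hp.2, ← hq.2, hpq]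
  exact_mod_cast hcard

/-- The mean over independent copies of a product of functions of two coordinates. -/
private theorem fb_epd {H M : ℕ} (hM : 0 < M) {h h' : Fin H} (hne : h ≠ h') (f g : ℕ → ℝ) :
    DG.EpD H M (fun l => f (l h) * g (l h')) = DG.Mn M f * DG.Mn M g := by
  classical
  have hM' : (0 : ℝ) < M := by exact_mod_cast hM
  let G : Fin H → ℕ → ℝ := fun i x => if i = h then f (ArithmeticFunction.cardFactors x) else
    if i = h' then g (ArithmeticFunction.cardFactors x) else 1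
  have hG1 : ∀ x, G h x = f (ArithmeticFunction.cardFactors x) := fun x => if_pos rfl
  have hG2 : ∀ x, G h' x = g (ArithmeticFunction.cardFactors x) := fun x => by
    simp only [G, if_neg hne.symm, if_true]
  have hG3 : ∀ i, i ≠ h → i ≠ h' → ∀ x, G i x = 1 := fun i h1 h2 x => by
    simp only [G, if_neg h1, if_neg h2]
  have h1 : ∀ m : Fin H → ℕ, f (ArithmeticFunction.cardFactors (m h)) *
      g (ArithmeticFunction.cardFactors (m h')) = ∏ i, G i (m i) := by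
    intro m
    rw [Finset.prod_eq_mul h h' hne (fun i _ hi => hG3 i hi.1 hi.2 _)
      (fun hi => absurd (Finset.mem_univ _) hi) (fun hi => absurd (Finset.mem_univ _) hi), hG1, hG2]
  have h2 : ∀ i : Fin H, i ≠ h ∧ i ≠ h' → 1 / (M : ℝ) * ∑ x ∈ Icc 1 M, G i x = 1 := by
    intro i hi
    rw [Finset.sum_congr rfl fun x _ => hG3 i hi.1 hi.2 x]
    simp only [Finset.sum_const, Nat.card_Icc, Nat.add_sub_cancel, nsmul_eq_mul, mul_one]
    field_simp
  rw [DG.EpD, Finset.sum_congr rfl fun m _ => h1 m, ← Finset.prod_univ_sum]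
  have h3 : 1 / (M : ℝ) ^ H * ∏ i : Fin H, ∑ x ∈ Icc 1 M, G i x =
      ∏ i : Fin H, (1 / (M : ℝ) * ∑ x ∈ Icc 1 M, G i x) := by
    rw [Finset.prod_mul_distrib, Finset.prod_const, Finset.card_univ, Fintype.card_fin, one_div,
      one_div, inv_pow]
  rw [h3, Finset.prod_eq_mul h h' hne (fun i _ hi => h2 i hi)
    (fun hi => absurd (Finset.mem_univ _) hi) (fun hi => absurd (Finset.mem_univ _) hi)]
  simp only [hG1, hG2]
  rfl

private theorem fb_shift {M : ℕ} (hM : 0 < M) {f : ℕ → ℝ} (hf : ∀ x, |f x| ≤ 1) (h : ℕ) :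
    |1 / (M : ℝ) * ∑ n ∈ Icc 1 M, f (ArithmeticFunction.cardFactors (n + h)) - DG.Mn M f| ≤
      2 * h / M := by
  have hM' : (0 : ℝ) < M := by exact_mod_cast hM
  have h1 := sum_shift_le (fun n => f (ArithmeticFunction.cardFactors n)) (fun n => hf _) M h
  rw [DG.Mn, ← mul_sub, abs_mul, abs_of_nonneg (by positivity : (0 : ℝ) ≤ 1 / (M : ℝ))]
  calc 1 / (M : ℝ) * _ ≤ 1 / (M : ℝ) * (2 * h) := mul_le_mul_of_nonneg_left h1 (by positivity)
    _ = 2 * h / M := by ring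

private theorem fb_corr {H M : ℕ} (hM : 0 < M) {h h' : ℕ} (hh : h < H) (hh' : h' < H)
    (hne : h ≠ h') {f g : ℕ → ℝ} (hf : ∀ x, |f x| ≤ 1) (hg : ∀ x, |g x| ≤ 1) :
    |1 / (M : ℝ) * ∑ n ∈ Icc 1 M, cen M f (n + h) * cen M g (n + h')| ≤
      |DG.Ec H M (fun l => f (l ⟨h, hh⟩) * g (l ⟨h', hh'⟩)) -
        DG.EpD H M (fun l => f (l ⟨h, hh⟩) * g (l ⟨h', hh'⟩))| + 4 * H / M := by
  have hM' : (0 : ℝ) < M := by exact_mod_cast hM
  rw [fb_epd hM (by simpa [Fin.ext_iff] using hne)]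
  have h1 := fb_shift hM hf h
  have h2 := fb_shift hM hg h'
  have m1 := fb_mn M hf
  have m2 := fb_mn M hg
  have hEc : DG.Ec H M (fun l => f (l ⟨h, hh⟩) * g (l ⟨h', hh'⟩)) =
      1 / (M : ℝ) * ∑ n ∈ Icc 1 M, f (ArithmeticFunction.cardFactors (n + h)) *
        g (ArithmeticFunction.cardFactors (n + h')) := rfl
  rw [hEc]
  have hexp : 1 / (M : ℝ) * ∑ n ∈ Icc 1 M, cen M f (n + h) * cen M g (n + h') =
      1 / (M : ℝ) * ∑ n ∈ Icc 1 M, f (ArithmeticFunction.cardFactors (n + h)) *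
        g (ArithmeticFunction.cardFactors (n + h')) - DG.Mn M g *
        (1 / (M : ℝ) * ∑ n ∈ Icc 1 M, f (ArithmeticFunction.cardFactors (n + h))) -
        DG.Mn M f * (1 / (M : ℝ) * ∑ n ∈ Icc 1 M, g (ArithmeticFunction.cardFactors (n + h'))) +
        DG.Mn M f * DG.Mn M g := by
    have e1 : ∀ n, cen M f (n + h) * cen M g (n + h') =
        f (ArithmeticFunction.cardFactors (n + h)) * g (ArithmeticFunction.cardFactors (n + h')) -
        DG.Mn M g * f (ArithmeticFunction.cardFactors (n + h)) -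
        DG.Mn M f * g (ArithmeticFunction.cardFactors (n + h')) + DG.Mn M f * DG.Mn M g := by
      intro n
      rw [cen, cen]
      ring
    rw [Finset.sum_congr rfl fun n _ => e1 n, Finset.sum_add_distrib, Finset.sum_sub_distrib,
      Finset.sum_sub_distrib, ← Finset.mul_sum, ← Finset.mul_sum, Finset.sum_const, Nat.card_Icc,
      Nat.add_sub_cancel, nsmul_eq_mul]
    field_simp
  rw [hexp]
  generalize 1 / (M : ℝ) * ∑ n ∈ Icc 1 M, f (ArithmeticFunction.cardFactors (n + h)) *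
        g (ArithmeticFunction.cardFactors (n + h')) = E
  generalize 1 / (M : ℝ) * ∑ n ∈ Icc 1 M, f (ArithmeticFunction.cardFactors (n + h)) = A at *
  generalize 1 / (M : ℝ) * ∑ n ∈ Icc 1 M, g (ArithmeticFunction.cardFactors (n + h')) = B at *
  generalize DG.Mn M f = a at *
  generalize DG.Mn M g = b at *
  have e2 : E - b * A - a * B + a * b = (E - a * b) - b * (A - a) - a * (B - b) := by ring
  rw [e2]
  have t1 : |b * (A - a)| ≤ 2 * h / M := by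
    rw [abs_mul]
    calc |b| * |A - a| ≤ 1 * (2 * h / M) := mul_le_mul m2 h1 (abs_nonneg _) (by norm_num)
      _ = _ := one_mul _
  have t2 : |a * (B - b)| ≤ 2 * h' / M := by
    rw [abs_mul]
    calc |a| * |B - b| ≤ 1 * (2 * h' / M) := mul_le_mul m1 h2 (abs_nonneg _) (by norm_num)
      _ = _ := one_mul _
  have t3 : 2 * (h : ℝ) / M + 2 * h' / M ≤ 4 * H / M := by
    rw [← add_div]
    refine div_le_div_of_nonneg_right ?_ hM'.le
    have q1 : (h : ℝ) ≤ H := by exact_mod_cast hh.le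
    have q2 : (h' : ℝ) ≤ H := by exact_mod_cast hh'.le
    linarith
  have t4 := abs_sub ((E - a * b) - b * (A - a)) (a * (B - b))
  have t5 := abs_sub (E - a * b) (b * (A - a))
  linarith

private theorem fb_pair (H : ℕ) (ε : ℝ) (hε : 0 < ε) (p : ℕ × ℕ) :
    ∃ K0 N0 : ℕ, ∀ N K : ℕ, N0 ≤ N → K0 ≤ K → K ≤ N → p.1 < H → p.2 < H → p.1 ≠ p.2 →
      ∀ f g : ℕ → ℝ, (∀ x, |f x| ≤ 1) → (∀ x, |g x| ≤ 1) →
        ∑ M ∈ Ioc (N / K) N, (1 / (M : ℝ)) *
          |1 / (M : ℝ) * ∑ n ∈ Icc 1 M, cen M f (n + p.1) * cen M g (n + p.2)| ≤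
          ε * Real.log K := by
  classical
  by_cases hp : p.1 < H ∧ p.2 < H ∧ p.1 ≠ p.2
  swap
  · exact ⟨0, 0, fun N K _ _ _ h1 h2 h3 => absurd ⟨h1, h2, h3⟩ hp⟩
  obtain ⟨hp1, hp2, hne⟩ := hp
  obtain ⟨δ, hδ, K1, N1, hKN⟩ := DG.twoSet_holds H (min p.1 p.2) (max p.1 p.2)
    (by rcases lt_or_gt_of_ne hne with h | h
        · rw [min_eq_left h.le, max_eq_right h.le]; exact h
        · rw [min_eq_right h.le, max_eq_left h.le]; exact h) (max_lt hp1 hp2) (ε / 2) (by positivity)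
  obtain ⟨K2, hK2⟩ := Filter.eventually_atTop.1
    ((Real.tendsto_log_atTop.comp (tendsto_natCast_atTop_atTop (R := ℝ))).eventually_ge_atTop
      (4 * H / (ε / 2)))
  refine ⟨max (max K1 K2) 1, N1, fun N K hN hK hKN' _ _ _ f g hf hg => ?_⟩
  have hK1 : K1 ≤ K := le_trans (le_trans (le_max_left _ _) (le_max_left _ _)) hK
  have hK2' : K2 ≤ K := le_trans (le_trans (le_max_right _ _) (le_max_left _ _)) hK
  have hK3 : 1 ≤ K := le_trans (le_max_right _ _) hK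
  have hlog : 4 * (H : ℝ) ≤ ε / 2 * Real.log K := by
    have h1 := hK2 K hK2'
    simp only [Function.comp_apply] at h1
    rw [div_le_iff₀ (by positivity)] at h1
    linarith
  let F : (Fin H → ℕ) → ℝ := fun l => f (l ⟨p.1, hp1⟩) * g (l ⟨p.2, hp2⟩)
  have hF : ∀ l, |F l| ≤ 1 := fun l => by
    simp only [F, abs_mul]
    exact mul_le_one₀ (hf _) (abs_nonneg _) (hg _)
  have hS : DG.SlowOutS H {min p.1 p.2, max p.1 p.2} δ F := by
    intro l i hi
    have h1 : i.1 ≠ p.1 := by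
      intro h
      refine hi ?_
      rw [Finset.mem_insert, Finset.mem_singleton, h]
      rcases le_total p.1 p.2 with h2 | h2
      · exact Or.inl (min_eq_left h2).symm
      · exact Or.inr (max_eq_left h2).symm
    have h2 : i.1 ≠ p.2 := by
      intro h
      refine hi ?_
      rw [Finset.mem_insert, Finset.mem_singleton, h]
      rcases le_total p.1 p.2 with h2 | h2
      · exact Or.inr (max_eq_right h2).symm
      · exact Or.inl (min_eq_right h2).symm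
    have h3 : (⟨p.1, hp1⟩ : Fin H) ≠ i := fun h => h1 (by rw [← h])
    have h4 : (⟨p.2, hp2⟩ : Fin H) ≠ i := fun h => h2 (by rw [← h])
    simp only [F, Function.update_of_ne h3, Function.update_of_ne h4, sub_self, abs_zero]
    exact hδ.le
  have hmain := hKN N K hN hK1 hKN' F hF hS
  have hdiv : 1 ≤ N / K := (Nat.one_le_div_iff (by omega)).2 hKN'
  have hsq : ∑ M ∈ Ioc (N / K) N, ((M : ℝ) ^ 2)⁻¹ ≤ 1 := by
    have h1 := sum_Ioc_inv_sq_le_sub (α := ℝ) (k := N / K) (n := N) (by omega)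
      (Nat.div_le_self _ _)
    have h2 : ((N / K : ℕ) : ℝ)⁻¹ ≤ 1 := by
      refine inv_le_one_of_one_le₀ ?_
      exact_mod_cast hdiv
    have h3 : (0 : ℝ) ≤ (N : ℝ)⁻¹ := by positivity
    linarith
  have hterm : ∀ M ∈ Ioc (N / K) N, (1 / (M : ℝ)) *
      |1 / (M : ℝ) * ∑ n ∈ Icc 1 M, cen M f (n + p.1) * cen M g (n + p.2)| ≤
      (1 / (M : ℝ)) * |DG.Ec H M F - DG.EpD H M F| + 4 * H * ((M : ℝ) ^ 2)⁻¹ := by
    intro M hM
    rw [Finset.mem_Ioc] at hM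
    have hM0 : 0 < M := by omega
    have hM' : (0 : ℝ) < M := by exact_mod_cast hM0
    have h1 := fb_corr hM0 hp1 hp2 hne hf hg
    calc (1 / (M : ℝ)) *
        |1 / (M : ℝ) * ∑ n ∈ Icc 1 M, cen M f (n + p.1) * cen M g (n + p.2)| ≤
        (1 / (M : ℝ)) * (|DG.Ec H M F - DG.EpD H M F| + 4 * H / M) :=
          mul_le_mul_of_nonneg_left h1 (by positivity)
      _ = _ := by field_simp
  refine (Finset.sum_le_sum hterm).trans ?_
  rw [Finset.sum_add_distrib, ← Finset.mul_sum]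
  have h5 : 4 * (H : ℝ) * ∑ M ∈ Ioc (N / K) N, ((M : ℝ) ^ 2)⁻¹ ≤ 4 * H * 1 :=
    mul_le_mul_of_nonneg_left hsq (by positivity)
  linarith

theorem pairs (H : ℕ) (η : ℝ) (hη : 0 < η) : ∃ K0 N0 : ℕ, ∀ N K : ℕ, N0 ≤ N → K0 ≤ K → K ≤ N →
    ∀ ψ : ℕ → ℕ → ℝ, (∀ h x, |ψ h x| ≤ 1) →
      ∑ M ∈ Ioc (N / K) N, (1 / (M : ℝ)) *
        ∑ p ∈ (range H ×ˢ range H).filter (fun p => p.1 ≠ p.2),
          |1 / (M : ℝ) * ∑ n ∈ Icc 1 M, cen M (ψ p.1) (n + p.1) * cen M (ψ p.2) (n + p.2)| ≤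
        η * Real.log K := by
  classical
  have hH : (0 : ℝ) < (H : ℝ) ^ 2 + 1 := by positivity
  choose K0 N0 hKN using fb_pair H (η / ((H : ℝ) ^ 2 + 1)) (by positivity)
  set S := (range H ×ˢ range H).filter (fun p => p.1 ≠ p.2) with hSdef
  refine ⟨S.sup K0, S.sup N0, fun N K hN hK hKN' ψ hψ => ?_⟩
  have h1 : ∑ M ∈ Ioc (N / K) N, (1 / (M : ℝ)) * ∑ p ∈ S,
      |1 / (M : ℝ) * ∑ n ∈ Icc 1 M, cen M (ψ p.1) (n + p.1) * cen M (ψ p.2) (n + p.2)| =
      ∑ p ∈ S, ∑ M ∈ Ioc (N / K) N, (1 / (M : ℝ)) *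
        |1 / (M : ℝ) * ∑ n ∈ Icc 1 M, cen M (ψ p.1) (n + p.1) * cen M (ψ p.2) (n + p.2)| := by
    rw [Finset.sum_comm]
    refine Finset.sum_congr rfl fun M _ => ?_
    rw [Finset.mul_sum]
  rw [h1]
  have h2 : ∀ p ∈ S, ∑ M ∈ Ioc (N / K) N, (1 / (M : ℝ)) *
      |1 / (M : ℝ) * ∑ n ∈ Icc 1 M, cen M (ψ p.1) (n + p.1) * cen M (ψ p.2) (n + p.2)| ≤
      η / ((H : ℝ) ^ 2 + 1) * Real.log K := by
    intro p hp
    have hp' := hp
    rw [hSdef, Finset.mem_filter, Finset.mem_product, Finset.mem_range, Finset.mem_range] at hp'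
    exact hKN p N K ((Finset.le_sup hp).trans hN) ((Finset.le_sup hp).trans hK) hKN' hp'.1.1
      hp'.1.2 hp'.2 (ψ p.1) (ψ p.2) (hψ _) (hψ _)
  refine (Finset.sum_le_sum h2).trans ?_
  rw [Finset.sum_const, nsmul_eq_mul]
  have hcard : (S.card : ℝ) ≤ (H : ℝ) ^ 2 := by
    have : S.card ≤ H * H := by
      refine (Finset.card_filter_le _ _).trans ?_
      rw [Finset.card_product, Finset.card_range]
    calc (S.card : ℝ) ≤ ((H * H : ℕ) : ℝ) := by exact_mod_cast this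
      _ = (H : ℝ) ^ 2 := by push_cast; ring
  have hlog : 0 ≤ Real.log (K : ℝ) := Real.log_natCast_nonneg K
  calc (S.card : ℝ) * (η / ((H : ℝ) ^ 2 + 1) * Real.log K) ≤
        ((H : ℝ) ^ 2 + 1) * (η / ((H : ℝ) ^ 2 + 1) * Real.log K) :=
        mul_le_mul_of_nonneg_right (by linarith) (by positivity)
    _ = η * Real.log K := by field_simp

end FR
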