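import Pool.Agent.Helper6.FR.F4Few
import Pool.Agent.Helper6.FR.F5Bes

/-!
# FAR-6: all but boundedly many far coordinates

PROOF. `cutM_scale`: from `cutLog (k + 1)` at `M` and at `N` (both against `EpL`): `|Ep (k+1) M Ψ - Ep (k+1) N Ψ| ≤ 2 τ`
for `|Ψ| ≤ 1`, so `CutM k N δ R`, `|R| ≤ 2`, implies `CutM k M (δ + 4 τ) R` for `η log N ≤ log M`, `M ≤ N`.
`farA`: parameters: `δ₁, B₁` from `fewBad k (ε / 16)`; `C₂` from `dom k (ε / 64)` (Helper6/AS/S05); `δ'` small against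
`δ₁` and `ε / C₂`; `C` from `regArr k (δ' / 2)` with `H = 1` (`CutA k N 1 δ` is `CutM k N δ`); `B` large.
Given `N, K, a, F`: `F = ∑_{j<C} φ_j ψ_j + R`, `|R| ≤ 2`, `CutM k N (δ' / 2) R`. Suppose there are more than `B` bad shifts,
`T` a set of exactly `B + 1` of them. For every `M` in the window with `η log N ≤ log M`:
 `∑_{h ∈ T} |Jm M a h F - Sm M a F| ≤ ∑_j ∑_{h ∈ T} |E φ_j(y(n)) cen M ψ_j (n + h)| + ∑_{h ∈ T} |Jm M a h R| + |T| |Sm M a R|`;
 first term: `bessel`, linearised (`besselLin`), and `pairs`; second term: `fewBad` for `R / 2`; third term: `SmCut`.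
 The scales with `log M < η log N` as in F1Goal (`DG.F1.small_scales`).
-/

set_option autoImplicit false

namespace FR

open Finset Helper13.Om Helper11.QR AS

namespace F6

lemma Ep_smul (k N : ℕ) (c : ℝ) (G : (Fin k → ℕ) → ℝ) :
    Ep k N (fun y => c * G y) = c * Ep k N G := by
  unfold Ep
  rw [← Finset.mul_sum]
  ring

lemma cutM_scale (k : ℕ) (η τ : ℝ) (hη : 0 < η) (hη1 : η ≤ 1) (hτ : 0 < τ) : ∃ N0 : ℕ,
    ∀ N : ℕ, N0 ≤ N → ∀ M : ℕ, M ≤ N → η * Real.log N ≤ Real.log M → ∀ δ : ℝ,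
    ∀ R : (Fin k → ℕ) → ℕ → ℝ, (∀ y x, |R y x| ≤ 2) → CutM k N δ R → CutM k M (δ + 4 * τ) R := by
  obtain ⟨N0, h⟩ := cutLog (k + 1) η τ hη hτ
  refine ⟨N0, fun N hN M hMN hM δ R hR hc g f hg hf => ?_⟩
  have hΨ1 : ∀ ℓ : Fin (k + 1) → ℕ, |1 / 2 * (R (fun c => ℓ c.castSucc) (ℓ (Fin.last k)) *
      (g (fun c => ℓ c.castSucc) * f (ℓ (Fin.last k))))| ≤ 1 := by
    intro ℓ
    rw [abs_mul, abs_mul, abs_mul, abs_of_pos (by norm_num : (0 : ℝ) < 1 / 2)]
    have h1 := hR (fun c => ℓ c.castSucc) (ℓ (Fin.last k))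
    have h2 : |g (fun c => ℓ c.castSucc)| * |f (ℓ (Fin.last k))| ≤ 1 :=
      mul_le_one₀ (hg _) (abs_nonneg _) (hf _)
    have h3 := mul_le_mul h1 h2 (by positivity) (by norm_num : (0 : ℝ) ≤ 2)
    linarith
  have h1 := h N hN M hMN hM _ hΨ1
  have hlog : 0 ≤ Real.log N := Real.log_natCast_nonneg N
  have h2 := h N hN N le_rfl (by nlinarith) _ hΨ1
  have h3 := hc g f hg hf
  rw [Ep_smul] at h1 h2
  have h1' := abs_le.1 h1
  have h2' := abs_le.1 h2
  have h3' := abs_le.1 h3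
  rw [abs_le]
  constructor <;> linarith [h1'.1, h1'.2, h2'.1, h2'.2, h3'.1, h3'.2]

lemma reg (k : ℕ) (δ : ℝ) (hδ : 0 < δ) : ∃ C : ℕ, ∀ N : ℕ, 1 ≤ N →
    ∀ F : (Fin k → ℕ) → ℕ → ℝ, (∀ y x, |F y x| ≤ 1) →
    ∃ (J : ℕ) (φ : Fin J → (Fin k → ℕ) → ℝ) (ψ : Fin J → ℕ → ℝ), J ≤ C ∧
      (∀ j y, |φ j y| ≤ 1) ∧ (∀ j x, |ψ j x| ≤ 1) ∧
      (∀ y x, |∑ j, φ j y * ψ j x| ≤ 1) ∧
      CutM k N δ (fun y x => F y x - ∑ j, φ j y * ψ j x) := by
  obtain ⟨C, hC⟩ := regArr k δ hδ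
  refine ⟨C, fun N hN F hF => ?_⟩
  obtain ⟨J, φ, ψ, hJ, hφ, hψ, hs, hcut⟩ := hC 1 N le_rfl hN (fun _ y _ x => F y x)
    (fun _ y _ x => hF y x)
  refine ⟨J, fun j => φ j 1, fun j => ψ j 1, hJ, fun j => hφ j 1, fun j => hψ j 1,
    fun y x => hs 1 y 1 x, ?_⟩
  intro g f hg hf
  have h := hcut (fun _ => g) (fun _ => f) (fun _ => hg) (fun _ => hf)
  simpa using h

lemma SmCut (k : ℕ) (ε : ℝ) (hε : 0 < ε) : ∃ C : ℝ, 0 < C ∧ ∀ D : ℕ, ∃ N0 : ℕ, ∀ M : ℕ, N0 ≤ M →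
    ∀ a : Fin k → ℕ, Function.Injective a → (∀ c, a c ≤ D) → ∀ δ : ℝ,
    ∀ R : (Fin k → ℕ) → ℕ → ℝ, (∀ y x, |R y x| ≤ 2) → CutM k M δ R →
      |Sm M a R| ≤ C * δ + 2 * ε := by
  obtain ⟨C, hC, hdom⟩ := dom k ε hε
  refine ⟨C, hC, fun D => ?_⟩
  obtain ⟨N0, hN0⟩ := hdom D
  refine ⟨max N0 1, fun M hM a ha haD δ R hR hcut => ?_⟩
  have hM1 : 1 ≤ M := (le_max_right _ _).trans hM
  have hMR : (0 : ℝ) < M := by exact_mod_cast hM1
  obtain ⟨r, hr⟩ : ∃ r : (Fin k → ℕ) → ℝ, r = fun y => 1 / (M : ℝ) *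
    ∑ m ∈ Icc 1 M, R y (ArithmeticFunction.cardFactors m) := ⟨_, rfl⟩
  have hr2 : ∀ y, |r y| ≤ 2 := by
    intro y
    rw [hr]
    simp only
    rw [abs_mul, abs_of_pos (by positivity : (0 : ℝ) < 1 / (M : ℝ)), one_div,
      inv_mul_le_iff₀ hMR]
    refine (Finset.abs_sum_le_sum_abs _ _).trans ?_
    refine (Finset.sum_le_sum fun m _ => hR y _).trans ?_
    rw [Finset.sum_const, Nat.card_Icc, nsmul_eq_mul]
    simp
  have hEp : Ep k M (fun y => |r y|) ≤ δ := by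
    obtain ⟨g, hg⟩ : ∃ g : (Fin k → ℕ) → ℝ, g = fun y => if 0 ≤ r y then 1 else -1 := ⟨_, rfl⟩
    have hg1 : ∀ y, |g y| ≤ 1 := by
      intro y
      rw [hg]
      simp only
      split_ifs <;> simp
    have hgr : ∀ y, g y * r y = |r y| := by
      intro y
      rw [hg]
      simp only
      split_ifs with h
      · rw [abs_of_nonneg h, one_mul]
      · rw [abs_of_neg (not_le.1 h)]
        ring
    have h1 := hcut g (fun _ => 1) hg1 (fun _ => by simp)
    refine le_trans (le_of_eq ?_) ((le_abs_self _).trans h1)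
    rw [Ep_snoc]
    congr 1
    funext y
    rw [← hgr]
    unfold MRP.mx
    simp only [Fin.snoc_castSucc, Fin.snoc_last]
    rw [← Finset.sum_mul, hr]
    have : ∑ n ∈ Icc 1 M, R y (MRP.Om n) =
      ∑ m ∈ Icc 1 M, R y (ArithmeticFunction.cardFactors m) := rfl
    rw [this]
    ring
  have h1 := hN0 M ((le_max_left _ _).trans hM) a ha haD (fun y => 1 / 2 * |r y|)
    (fun y => ⟨by positivity, by linarith [hr2 y]⟩)
  rw [Ep_smul, ← Finset.mul_sum] at h1
  have h2 : |Sm M a R| ≤ 1 / (M : ℝ) *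
      ∑ n ∈ Icc 1 M, |r (fun c => ArithmeticFunction.cardFactors (n + a c))| := by
    unfold Sm
    rw [abs_mul, abs_of_pos (by positivity : (0 : ℝ) < 1 / (M : ℝ)), hr]
    exact mul_le_mul_of_nonneg_left (Finset.abs_sum_le_sum_abs _ _) (by positivity)
  have h3 : C * Ep k M (fun y => |r y|) ≤ C * δ := mul_le_mul_of_nonneg_left hEp hC.le
  have h4 : 1 / (M : ℝ) * (1 / 2 *
      ∑ n ∈ Icc 1 M, |r (fun c => ArithmeticFunction.cardFactors (n + a c))|) =
      1 / 2 * (1 / (M : ℝ) *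
      ∑ n ∈ Icc 1 M, |r (fun c => ArithmeticFunction.cardFactors (n + a c))|) := by ring
  rw [h4] at h1
  linarith

lemma decomp {k : ℕ} (M : ℕ) (a : Fin k → ℕ) (F R : (Fin k → ℕ) → ℕ → ℝ) (J : ℕ)
    (φ : Fin J → (Fin k → ℕ) → ℝ) (ψ : Fin J → ℕ → ℝ)
    (hR : ∀ y x, F y x = R y x + ∑ j, φ j y * ψ j x) (T : Finset ℕ) :
    ∑ h ∈ T, |Jm M a h F - Sm M a F| ≤
      ∑ j, ∑ h ∈ T, |1 / (M : ℝ) * ∑ n ∈ Icc 1 M,
        φ j (fun c => ArithmeticFunction.cardFactors (n + a c)) * cen M (ψ j) (n + h)| +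
      ∑ h ∈ T, |Jm M a h R| + T.card * |Sm M a R| := by
  have hJm : ∀ h, Jm M a h F = Jm M a h R + ∑ j, 1 / (M : ℝ) * ∑ n ∈ Icc 1 M,
      φ j (fun c => ArithmeticFunction.cardFactors (n + a c)) *
        ψ j (ArithmeticFunction.cardFactors (n + h)) := by
    intro h
    unfold Jm
    rw [← Finset.mul_sum, ← mul_add, Finset.sum_comm, ← Finset.sum_add_distrib]
    congr 1
    exact Finset.sum_congr rfl fun n _ => hR _ _
  have hSm : Sm M a F = Sm M a R + ∑ j, 1 / (M : ℝ) * ∑ n ∈ Icc 1 M,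
      φ j (fun c => ArithmeticFunction.cardFactors (n + a c)) * DG.Mn M (ψ j) := by
    have e1 : ∑ j, 1 / (M : ℝ) * ∑ n ∈ Icc 1 M,
        φ j (fun c => ArithmeticFunction.cardFactors (n + a c)) * DG.Mn M (ψ j) =
        1 / (M : ℝ) * ∑ n ∈ Icc 1 M, ∑ j,
        φ j (fun c => ArithmeticFunction.cardFactors (n + a c)) * DG.Mn M (ψ j) := by
      rw [← Finset.mul_sum, Finset.sum_comm]
    rw [e1]
    unfold Sm
    rw [← mul_add, ← Finset.sum_add_distrib]
    congr 1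
    refine Finset.sum_congr rfl fun n _ => ?_
    have h1 : ∑ j, φ j (fun c => ArithmeticFunction.cardFactors (n + a c)) * DG.Mn M (ψ j) =
        1 / (M : ℝ) * ∑ m ∈ Icc 1 M, ∑ j,
          φ j (fun c => ArithmeticFunction.cardFactors (n + a c)) *
            ψ j (ArithmeticFunction.cardFactors m) := by
      rw [Finset.sum_comm, Finset.mul_sum]
      refine Finset.sum_congr rfl fun j _ => ?_
      unfold DG.Mn
      rw [← Finset.mul_sum]
      ring
    rw [h1, ← mul_add, ← Finset.sum_add_distrib]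
    congr 1
    exact Finset.sum_congr rfl fun m _ => hR _ _
  have key : ∀ h, Jm M a h F - Sm M a F = (∑ j, 1 / (M : ℝ) * ∑ n ∈ Icc 1 M,
      φ j (fun c => ArithmeticFunction.cardFactors (n + a c)) * cen M (ψ j) (n + h)) +
      Jm M a h R - Sm M a R := by
    intro h
    have h1 : (∑ j, 1 / (M : ℝ) * ∑ n ∈ Icc 1 M,
        φ j (fun c => ArithmeticFunction.cardFactors (n + a c)) * cen M (ψ j) (n + h)) =
        (∑ j, 1 / (M : ℝ) * ∑ n ∈ Icc 1 M,
          φ j (fun c => ArithmeticFunction.cardFactors (n + a c)) *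
            ψ j (ArithmeticFunction.cardFactors (n + h))) -
        ∑ j, 1 / (M : ℝ) * ∑ n ∈ Icc 1 M,
          φ j (fun c => ArithmeticFunction.cardFactors (n + a c)) * DG.Mn M (ψ j) := by
      rw [← Finset.sum_sub_distrib]
      refine Finset.sum_congr rfl fun j _ => ?_
      rw [← mul_sub, ← Finset.sum_sub_distrib]
      congr 1
      refine Finset.sum_congr rfl fun n _ => ?_
      unfold cen
      ring
    rw [h1, hJm h, hSm]
    ring
  have h2 : ∀ h ∈ T, |Jm M a h F - Sm M a F| ≤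
      ∑ j, |1 / (M : ℝ) * ∑ n ∈ Icc 1 M,
        φ j (fun c => ArithmeticFunction.cardFactors (n + a c)) * cen M (ψ j) (n + h)| +
      |Jm M a h R| + |Sm M a R| := by
    intro h _
    rw [key h]
    refine (abs_sub _ _).trans ?_
    gcongr
    refine (abs_add_le _ _).trans ?_
    gcongr
    exact Finset.abs_sum_le_sum_abs _ _
  refine (Finset.sum_le_sum h2).trans ?_
  rw [Finset.sum_add_distrib, Finset.sum_add_distrib, Finset.sum_comm, Finset.sum_const,
    nsmul_eq_mul]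

/-- the pair sum -/
noncomputable def XX (H M : ℕ) (ψ : ℕ → ℝ) : ℝ :=
  ∑ p ∈ (range H ×ˢ range H).filter (fun p => p.1 ≠ p.2),
    |1 / (M : ℝ) * ∑ n ∈ Icc 1 M, cen M ψ (n + p.1) * cen M ψ (n + p.2)|

lemma XX_nonneg (H M : ℕ) (ψ : ℕ → ℝ) : 0 ≤ XX H M ψ :=
  Finset.sum_nonneg fun _ _ => abs_nonneg _

lemma besselLin (H M : ℕ) (G : ℕ → ℝ) (hG : ∀ n, |G n| ≤ 1) (ψ : ℕ → ℝ) (hψ : ∀ x, |ψ x| ≤ 1)
    (T : Finset ℕ) (hT : T ⊆ range H) (hT1 : 1 ≤ T.card) (e : ℝ) (he : 0 < e) :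
    ∑ h ∈ T, |1 / (M : ℝ) * ∑ n ∈ Icc 1 M, G n * cen M ψ (n + h)| ≤
      2 / e + e * T.card / 2 + XX H M ψ / (2 * e) := by
  have h1 := bessel M G hG (fun _ => ψ) (fun _ => hψ) T
  have h2 : ∑ p ∈ (T ×ˢ T).filter (fun p => p.1 ≠ p.2),
        |1 / (M : ℝ) * ∑ n ∈ Icc 1 M, cen M ψ (n + p.1) * cen M ψ (n + p.2)| ≤ XX H M ψ := by
    apply Finset.sum_le_sum_of_subset_of_nonneg
    · apply Finset.filter_subset_filter
      exact Finset.product_subset_product hT hT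
    · intro _ _ _
      exact abs_nonneg _
  set s := ∑ h ∈ T, |1 / (M : ℝ) * ∑ n ∈ Icc 1 M, G n * cen M ψ (n + h)| with hs
  have h3 : s ^ 2 ≤ 4 * T.card + XX H M ψ := h1.trans (by linarith)
  have hX := XX_nonneg H M ψ
  have hTR : (1 : ℝ) ≤ T.card := by exact_mod_cast hT1
  have hT0 : (0 : ℝ) < T.card := by linarith
  have h4 : 0 ≤ (s - e * T.card) ^ 2 := sq_nonneg _
  have h5 : s * (2 * (e * T.card)) ≤ 4 * T.card + XX H M ψ + (e * T.card) ^ 2 := by nlinarith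
  have h6 : s ≤ (4 * T.card + XX H M ψ + (e * T.card) ^ 2) / (2 * (e * T.card)) := by
    rw [le_div_iff₀ (by positivity)]
    exact h5
  have h7 : (4 * (T.card : ℝ) + XX H M ψ + (e * T.card) ^ 2) / (2 * (e * T.card)) =
      2 / e + e * T.card / 2 + XX H M ψ / (2 * e * T.card) := by
    field_simp
    ring
  rw [h7] at h6
  have h8 : XX H M ψ / (2 * e * T.card) ≤ XX H M ψ / (2 * e) := by
    apply div_le_div_of_nonneg_left hX (by positivity)
    nlinarith
  linarith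

lemma Jm_abs {k : ℕ} (M : ℕ) (a : Fin k → ℕ) (h : ℕ) (F : (Fin k → ℕ) → ℕ → ℝ)
    (hF : ∀ y x, |F y x| ≤ 1) : |Jm M a h F| ≤ 1 := by
  unfold Jm
  rcases Nat.eq_zero_or_pos M with rfl | hM
  · simp
  · have hMR : (0 : ℝ) < M := by exact_mod_cast hM
    rw [abs_mul, abs_of_pos (by positivity : (0 : ℝ) < 1 / (M : ℝ)), one_div,
      inv_mul_le_iff₀ hMR]
    refine (Finset.abs_sum_le_sum_abs _ _).trans ?_
    refine (Finset.sum_le_sum fun m _ => hF _ _).trans ?_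
    rw [Finset.sum_const, Nat.card_Icc, nsmul_eq_mul]
    simp

lemma Sm_abs {k : ℕ} (M : ℕ) (a : Fin k → ℕ) (F : (Fin k → ℕ) → ℕ → ℝ)
    (hF : ∀ y x, |F y x| ≤ 1) : |Sm M a F| ≤ 1 := by
  unfold Sm
  rcases Nat.eq_zero_or_pos M with rfl | hM
  · simp
  · have hMR : (0 : ℝ) < M := by exact_mod_cast hM
    have h1 : ∀ g : ℕ → ℝ, (∀ n, |g n| ≤ 1) → |1 / (M : ℝ) * ∑ n ∈ Icc 1 M, g n| ≤ 1 := by
      intro g hg
      rw [abs_mul, abs_of_pos (by positivity : (0 : ℝ) < 1 / (M : ℝ)), one_div,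
        inv_mul_le_iff₀ hMR]
      refine (Finset.abs_sum_le_sum_abs _ _).trans ?_
      refine (Finset.sum_le_sum fun m _ => hg _).trans ?_
      rw [Finset.sum_const, Nat.card_Icc, nsmul_eq_mul]
      simp
    exact h1 _ fun n => h1 _ fun m => hF _ _

/-- few bad shifts: the sum over a set of shifts -/
lemma sumFew {k : ℕ} (M H B : ℕ) (a : Fin k → ℕ) (R : (Fin k → ℕ) → ℕ → ℝ)
    (hR : ∀ y x, |R y x| ≤ 1) (e : ℝ) (he : 0 ≤ e)
    (hB : ((range H).filter (fun h => (∀ c, a c ≠ h) ∧ e ≤ |Jm M a h R|)).card ≤ B)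
    (T : Finset ℕ) (hT : T ⊆ range H) (hTa : ∀ h ∈ T, ∀ c, a c ≠ h) :
    ∑ h ∈ T, |Jm M a h R| ≤ B + e * T.card := by
  classical
  rw [← Finset.sum_filter_add_sum_filter_not T (fun h => e ≤ |Jm M a h R|)]
  have h1 : ∑ h ∈ T.filter (fun h => e ≤ |Jm M a h R|), |Jm M a h R| ≤ B := by
    refine (Finset.sum_le_sum fun h _ => Jm_abs M a h R hR).trans ?_
    rw [Finset.sum_const, nsmul_eq_mul, mul_one]
    have h2 : (T.filter (fun h => e ≤ |Jm M a h R|)).card ≤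
        ((range H).filter (fun h => (∀ c, a c ≠ h) ∧ e ≤ |Jm M a h R|)).card := by
      apply Finset.card_le_card
      intro h hh
      rw [Finset.mem_filter] at hh ⊢
      exact ⟨hT hh.1, hTa h hh.1, hh.2⟩
    exact_mod_cast h2.trans hB
  have h3 : ∑ h ∈ T.filter (fun h => ¬ e ≤ |Jm M a h R|), |Jm M a h R| ≤ e * T.card := by
    have h4 : ∀ h ∈ T.filter (fun h => ¬ e ≤ |Jm M a h R|), |Jm M a h R| ≤ e := by
      intro h hh
      rw [Finset.mem_filter, not_le] at hh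
      exact hh.2.le
    refine (Finset.sum_le_sum h4).trans ?_
    rw [Finset.sum_const, nsmul_eq_mul, mul_comm]
    have h5 : ((T.filter (fun h => ¬ e ≤ |Jm M a h R|)).card : ℝ) ≤ T.card := by
      exact_mod_cast Finset.card_filter_le _ _
    exact mul_le_mul_of_nonneg_left h5 he
  linarith

lemma Jm_smul {k : ℕ} (M : ℕ) (a : Fin k → ℕ) (h : ℕ) (c : ℝ) (R : (Fin k → ℕ) → ℕ → ℝ) :
    Jm M a h (fun y x => c * R y x) = c * Jm M a h R := by
  unfold Jm
  rw [← Finset.mul_sum]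
  ring

lemma CutM_smul {k : ℕ} (N : ℕ) (δ : ℝ) (c : ℝ) (hc : 0 ≤ c) (R : (Fin k → ℕ) → ℕ → ℝ)
    (h : CutM k N δ R) : CutM k N (c * δ) (fun y x => c * R y x) := by
  intro g f hg hf
  have h1 := h g f hg hf
  have h2 : (fun ℓ : Fin (k + 1) → ℕ => c * R (fun c => ℓ c.castSucc) (ℓ (Fin.last k)) *
      (g (fun c => ℓ c.castSucc) * f (ℓ (Fin.last k)))) =
      fun ℓ => c * (R (fun c => ℓ c.castSucc) (ℓ (Fin.last k)) *
      (g (fun c => ℓ c.castSucc) * f (ℓ (Fin.last k)))) := by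
    funext ℓ
    ring
  rw [h2, Ep_smul, abs_mul, abs_of_nonneg hc]
  exact mul_le_mul_of_nonneg_left h1 hc

/-- the final arithmetic -/
lemma arith (ε C' B₁ t L J e₂ : ℝ) (hε : 0 < ε) (hC' : 1 ≤ C') (hJ : J ≤ C')
    (he₂ : e₂ = ε / (16 * C')) (ht : 1 ≤ t) (h1 : 1024 * C' ^ 2 / ε ^ 2 ≤ t)
    (h2 : 64 * B₁ / ε ≤ t) (hL : 64 ≤ ε * L) :
    (J * (2 / e₂ + e₂ * t / 2) + 2 * (B₁ + ε / 16 * t) + t * (ε / 16)) * (2 * L) +
      J * (ε * e₂ / (8 * C') * L / (2 * e₂)) + t * (2 + ε / 16 * L) < t * (ε * L) := by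
  have hC0 : 0 < C' := by linarith
  have he0 : 0 < e₂ := by rw [he₂]; positivity
  have hL0 : 0 < L := by
    by_contra hcon
    have : ε * L ≤ 0 := mul_nonpos_of_nonneg_of_nonpos hε.le (not_lt.1 hcon)
    linarith
  have a1 : J * (2 / e₂) ≤ ε / 32 * t := by
    have b1 : J * (2 / e₂) ≤ C' * (2 / e₂) := mul_le_mul_of_nonneg_right hJ (by positivity)
    have b2 : C' * (2 / e₂) = ε / 32 * (1024 * C' ^ 2 / ε ^ 2) := by
      rw [he₂]
      field_simp
      ring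
    rw [b2] at b1
    exact b1.trans (mul_le_mul_of_nonneg_left h1 (by positivity))
  have a2 : J * (e₂ * t / 2) ≤ ε / 32 * t := by
    have b1 : J * (e₂ * t / 2) ≤ C' * (e₂ * t / 2) :=
      mul_le_mul_of_nonneg_right hJ (by positivity)
    have b2 : C' * (e₂ * t / 2) = ε / 32 * t := by
      rw [he₂]
      field_simp
      ring
    linarith
  have a3 : B₁ ≤ ε / 64 * t := by
    rw [div_le_iff₀ hε] at h2
    linarith
  have a4 : J * (ε * e₂ / (8 * C') * L / (2 * e₂)) ≤ ε / 16 * L := by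
    have b1 : J * (ε * e₂ / (8 * C') * L / (2 * e₂)) ≤ C' * (ε * e₂ / (8 * C') * L / (2 * e₂)) :=
      mul_le_mul_of_nonneg_right hJ (by positivity)
    have b2 : C' * (ε * e₂ / (8 * C') * L / (2 * e₂)) = ε / 16 * L := by
      field_simp
      ring
    linarith
  have a5 : ε / 16 * L ≤ t * (ε / 16 * L) := by
    have : 0 ≤ ε / 16 * L := by positivity
    nlinarith
  have a6 : t * 2 ≤ t * (ε * L / 32) := mul_le_mul_of_nonneg_left (by linarith) (by linarith)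
  have a7 : (J * (2 / e₂ + e₂ * t / 2) + 2 * (B₁ + ε / 16 * t) + t * (ε / 16)) ≤
      ε * t * (9 / 32) := by
    have : J * (2 / e₂ + e₂ * t / 2) = J * (2 / e₂) + J * (e₂ * t / 2) := by ring
    rw [this]
    linarith
  have a8 := mul_le_mul_of_nonneg_right a7 (by positivity : (0 : ℝ) ≤ 2 * L)
  have a9 : 0 < t * (ε * L) := by positivity
  nlinarith

end F6

open F6

theorem farA (k : ℕ) (ε : ℝ) (hε : 0 < ε) : ∃ B : ℕ, ∀ H : ℕ, ∃ K0 N0 : ℕ, ∀ N K : ℕ,
    N0 ≤ N → K0 ≤ K → K ≤ N → ∀ a : Fin k → ℕ, Function.Injective a → (∀ c, a c < H) →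
    ∀ F : (Fin k → ℕ) → ℕ → ℝ, (∀ y x, |F y x| ≤ 1) →
      ((range H).filter (fun h => (∀ c, a c ≠ h) ∧ ε * Real.log K <
        ∑ M ∈ Ioc (N / K) N, (1 / (M : ℝ)) * |Jm M a h F - Sm M a F|)).card ≤ B := by
  classical
  obtain ⟨δ₁, hδ₁, B₁, hfew⟩ := fewBad k (ε / 16) (by positivity)
  obtain ⟨C₂, hC₂, hSm⟩ := SmCut k (ε / 64) (by positivity)
  obtain ⟨δ', hδ'⟩ : ∃ δ', δ' = min δ₁ (ε / (32 * (C₂ + 1))) := ⟨_, rfl⟩
  have hδ'0 : 0 < δ' := by rw [hδ']; exact lt_min hδ₁ (by positivity)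
  have hδ'1 : δ' ≤ δ₁ := by rw [hδ']; exact min_le_left _ _
  have hδ'2 : C₂ * δ' ≤ ε / 32 := by
    have h1 : δ' ≤ ε / (32 * (C₂ + 1)) := by rw [hδ']; exact min_le_right _ _
    have h2 : C₂ * δ' ≤ (C₂ + 1) * (ε / (32 * (C₂ + 1))) :=
      mul_le_mul (by linarith) h1 hδ'0.le (by linarith)
    have h3 : (C₂ + 1) * (ε / (32 * (C₂ + 1))) = ε / 32 := by field_simp
    linarith
  obtain ⟨C, hC⟩ := reg k (δ' / 2) (by positivity)
  obtain ⟨C', hC'⟩ : ∃ C' : ℝ, C' = (C : ℝ) + 1 := ⟨_, rfl⟩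
  have hC'1 : 1 ≤ C' := by
    have : (0 : ℝ) ≤ C := Nat.cast_nonneg _
    linarith
  obtain ⟨e₂, he₂⟩ : ∃ e₂ : ℝ, e₂ = ε / (16 * C') := ⟨_, rfl⟩
  have he₂0 : 0 < e₂ := by rw [he₂]; positivity
  obtain ⟨B, hB⟩ : ∃ B : ℕ, max (1024 * C' ^ 2 / ε ^ 2) (64 * B₁ / ε) ≤ (B : ℝ) :=
    exists_nat_ge _
  refine ⟨B, fun H => ?_⟩
  obtain ⟨N1, hN1⟩ := hfew H
  obtain ⟨N3, hN3⟩ := hSm H
  obtain ⟨Kp, Np, hpairs⟩ := pairs H (ε * e₂ / (8 * C')) (by positivity)
  obtain ⟨η, hη⟩ : ∃ η : ℝ, η = min (ε / 64) (1 / 2) := ⟨_, rfl⟩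
  have hη0 : 0 < η := by rw [hη]; exact lt_min (by positivity) (by norm_num)
  have hη1 : η ≤ ε / 64 := by rw [hη]; exact min_le_left _ _
  have hη2 : η ≤ 1 / 2 := by rw [hη]; exact min_le_right _ _
  obtain ⟨N4, hN4⟩ := cutM_scale k η (δ' / 8) hη0 (by linarith) (by positivity)
  obtain ⟨Nm, hNm⟩ : ∃ Nm : ℕ, Nm = max 1 (max N1 N3) := ⟨_, rfl⟩
  obtain ⟨N5, hN5⟩ : ∃ N5 : ℕ, Real.exp (Real.log Nm / η) ≤ N5 := exists_nat_ge _
  obtain ⟨Kd, hKd⟩ : ∃ Kd : ℕ, Real.exp (64 / ε + 2) ≤ Kd := exists_nat_ge _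
  refine ⟨max Kp (max Kd 1), max (max Np N4) (max N5 1), ?_⟩
  intro N K hN hK hKN a hainj haH F hF
  have hNp : Np ≤ N := (le_max_left _ _).trans ((le_max_left _ _).trans hN)
  have hN4' : N4 ≤ N := (le_max_right _ _).trans ((le_max_left _ _).trans hN)
  have hN5' : N5 ≤ N := (le_max_left _ _).trans ((le_max_right _ _).trans hN)
  have hNone : 1 ≤ N := (le_max_right _ _).trans ((le_max_right _ _).trans hN)
  have hKp : Kp ≤ K := (le_max_left _ _).trans hK
  have hKd' : Kd ≤ K := (le_max_left _ _).trans ((le_max_right _ _).trans hK)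
  have hK1 : 1 ≤ K := (le_max_right _ _).trans ((le_max_right _ _).trans hK)
  have hKr : (0 : ℝ) < K := by exact_mod_cast hK1
  have hNr : (0 : ℝ) < N := by exact_mod_cast hNone
  have hlogK : 64 / ε + 2 ≤ Real.log K := by
    rw [Real.le_log_iff_exp_le hKr]
    exact hKd.trans (by exact_mod_cast hKd')
  have hlogK2 : 2 ≤ Real.log K := by
    have : 0 ≤ 64 / ε := by positivity
    linarith
  have hlogKε : 64 ≤ ε * Real.log K := by
    have h1 : 64 / ε ≤ Real.log K := by linarith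
    rw [div_le_iff₀ hε] at h1
    linarith
  have hlogN : 0 ≤ Real.log N := Real.log_natCast_nonneg N
  have hmass : ∑ M ∈ Ioc (N / K) N, (1 / (M : ℝ)) ≤ 2 * Real.log K := by
    have := Helper11.QR.harm_window N K hK1 hKN
    linarith
  by_contra hcon
  rw [not_le] at hcon
  obtain ⟨T, hTsub, hTcard⟩ := Finset.exists_subset_card_eq (Nat.succ_le_of_lt hcon)
  have hTR : (T.card : ℝ) = (B : ℝ) + 1 := by
    rw [hTcard]
    push_cast
    ring
  have hTH : T ⊆ range H := hTsub.trans (Finset.filter_subset _ _)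
  have hTa : ∀ h ∈ T, ∀ c, a c ≠ h := fun h hh => (Finset.mem_filter.1 (hTsub hh)).2.1
  have hTbad : ∀ h ∈ T, ε * Real.log K <
      ∑ M ∈ Ioc (N / K) N, (1 / (M : ℝ)) * |Jm M a h F - Sm M a F| :=
    fun h hh => (Finset.mem_filter.1 (hTsub hh)).2.2
  have hT1 : 1 ≤ T.card := by rw [hTcard]; omega
  have hTne : T.Nonempty := Finset.card_pos.1 (by omega)
  have hBnn : (0 : ℝ) ≤ B := Nat.cast_nonneg _
  have ht1 : (1 : ℝ) ≤ T.card := by rw [hTR]; linarith
  have hmain : (T.card : ℝ) * (ε * Real.log K) <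
      ∑ M ∈ Ioc (N / K) N, (1 / (M : ℝ)) * ∑ h ∈ T, |Jm M a h F - Sm M a F| := by
    have h1 := Finset.sum_lt_sum_of_nonempty hTne hTbad
    rw [Finset.sum_const, nsmul_eq_mul, Finset.sum_comm] at h1
    refine h1.trans_le (le_of_eq ?_)
    refine Finset.sum_congr rfl fun M _ => ?_
    rw [Finset.mul_sum]
  -- the decomposition
  obtain ⟨J, φ, ψ, hJ, hφ, hψ, hs, hcut⟩ := hC N hNone F hF
  obtain ⟨R, hR⟩ : ∃ R : (Fin k → ℕ) → ℕ → ℝ, R = fun y x => F y x - ∑ j, φ j y * ψ j x :=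
    ⟨_, rfl⟩
  rw [← hR] at hcut
  have hFR : ∀ y x, F y x = R y x + ∑ j, φ j y * ψ j x := by
    intro y x
    rw [hR]
    ring
  have hR2 : ∀ y x, |R y x| ≤ 2 := by
    intro y x
    rw [hR]
    refine (abs_sub _ _).trans ?_
    linarith [hF y x, hs y x]
  have hJC : (J : ℝ) ≤ C' := by
    have : (J : ℝ) ≤ (C : ℝ) := by exact_mod_cast hJ
    linarith
  -- one large scale
  have hlarge : ∀ M ∈ (Ioc (N / K) N).filter (fun M : ℕ => η * Real.log N ≤ Real.log M),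
      ∑ h ∈ T, |Jm M a h F - Sm M a F| ≤
        ((J : ℝ) * (2 / e₂ + e₂ * T.card / 2) + 2 * (B₁ + ε / 16 * T.card) +
          T.card * (ε / 16)) + ∑ j, XX H M (ψ j) / (2 * e₂) := by
    intro M hM
    rw [Finset.mem_filter, Finset.mem_Ioc] at hM
    obtain ⟨⟨hM1, hM2⟩, hM3⟩ := hM
    have hM0 : 0 < M := lt_of_le_of_lt (Nat.zero_le _) hM1
    have hMR : (0 : ℝ) < M := by exact_mod_cast hM0
    have hNmM : Nm ≤ M := by
      have hNm1 : 1 ≤ Nm := by rw [hNm]; exact le_max_left _ _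
      have hNmR : (0 : ℝ) < Nm := by exact_mod_cast hNm1
      have h1 : Real.log Nm / η ≤ Real.log N := by
        rw [Real.le_log_iff_exp_le hNr]
        exact hN5.trans (by exact_mod_cast hN5')
      rw [div_le_iff₀ hη0] at h1
      have h2 : Real.log Nm ≤ Real.log M := by linarith
      have h3 : (Nm : ℝ) ≤ M := (Real.log_le_log_iff hNmR hMR).1 h2
      exact_mod_cast h3
    have hMN1 : N1 ≤ M := ((le_max_left _ _).trans ((le_max_right _ _).trans
      (le_of_eq hNm.symm))).trans hNmM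
    have hMN3 : N3 ≤ M := ((le_max_right _ _).trans ((le_max_right _ _).trans
      (le_of_eq hNm.symm))).trans hNmM
    have hcutM : CutM k M δ' R := by
      have h1 := hN4 N hN4' M hM2 hM3 (δ' / 2) R hR2 hcut
      have h2 : δ' / 2 + 4 * (δ' / 8) = δ' := by ring
      rw [h2] at h1
      exact h1
    have hcutM2 : CutM k M δ₁ (fun y x => 1 / 2 * R y x) := by
      intro g f hg hf
      refine (CutM_smul M δ' (1 / 2) (by norm_num) R hcutM g f hg hf).trans ?_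
      linarith
    have hRh : ∀ y x, |1 / 2 * R y x| ≤ 1 := by
      intro y x
      rw [abs_mul, abs_of_pos (by norm_num : (0 : ℝ) < 1 / 2)]
      linarith [hR2 y x]
    have s1 := decomp M a F R J φ ψ hFR T
    have s2 : ∑ j, ∑ h ∈ T, |1 / (M : ℝ) * ∑ n ∈ Icc 1 M,
        φ j (fun c => ArithmeticFunction.cardFactors (n + a c)) * cen M (ψ j) (n + h)| ≤
        ∑ j, (2 / e₂ + e₂ * T.card / 2 + XX H M (ψ j) / (2 * e₂)) := by
      refine Finset.sum_le_sum fun j _ => ?_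
      exact besselLin H M (fun n => φ j (fun c => ArithmeticFunction.cardFactors (n + a c)))
        (fun n => hφ j _) (ψ j) (hψ j) T hTH hT1 e₂ he₂0
    rw [Finset.sum_add_distrib, Finset.sum_const, Finset.card_univ, Fintype.card_fin,
      nsmul_eq_mul] at s2
    have s3 : ∑ h ∈ T, |Jm M a h R| ≤ 2 * (B₁ + ε / 16 * T.card) := by
      have h1 := sumFew M H B₁ a (fun y x => 1 / 2 * R y x) hRh (ε / 16) (by positivity)
        (hN1 M hMN1 a hainj haH (fun _ y x => 1 / 2 * R y x) (fun _ => hRh)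
          (fun _ => hcutM2)) T hTH hTa
      simp only [Jm_smul] at h1
      have h2 : ∀ h ∈ T, |1 / 2 * Jm M a h R| = 1 / 2 * |Jm M a h R| := by
        intro h _
        rw [abs_mul, abs_of_pos (by norm_num : (0 : ℝ) < 1 / 2)]
      rw [Finset.sum_congr rfl h2, ← Finset.mul_sum] at h1
      linarith
    have s4 : |Sm M a R| ≤ ε / 16 := by
      have h1 := hN3 M hMN3 a hainj (fun c => (haH c).le) δ' R hR2 hcutM
      linarith
    have s5 : (T.card : ℝ) * |Sm M a R| ≤ T.card * (ε / 16) :=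
      mul_le_mul_of_nonneg_left s4 (Nat.cast_nonneg _)
    linarith
  have hlargeS : ∑ M ∈ (Ioc (N / K) N).filter (fun M : ℕ => η * Real.log N ≤ Real.log M),
      (1 / (M : ℝ)) * ∑ h ∈ T, |Jm M a h F - Sm M a F| ≤
        ((J : ℝ) * (2 / e₂ + e₂ * T.card / 2) + 2 * (B₁ + ε / 16 * T.card) +
          T.card * (ε / 16)) * (2 * Real.log K) +
        J * (ε * e₂ / (8 * C') * Real.log K / (2 * e₂)) := by
    obtain ⟨c, hc⟩ : ∃ c : ℝ, c = (J : ℝ) * (2 / e₂ + e₂ * T.card / 2) +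
      2 * (B₁ + ε / 16 * T.card) + T.card * (ε / 16) := ⟨_, rfl⟩
    have hc0 : 0 ≤ c := by
      rw [hc]
      have h0 : ∀ t : ℝ, 0 ≤ t → 0 ≤ (J : ℝ) * (2 / e₂ + e₂ * t / 2) +
        2 * (B₁ + ε / 16 * t) + t * (ε / 16) := fun t ht => by positivity
      exact h0 _ (Nat.cast_nonneg _)
    rw [← hc] at hlarge ⊢
    have h1 : ∑ M ∈ (Ioc (N / K) N).filter (fun M : ℕ => η * Real.log N ≤ Real.log M),
        (1 / (M : ℝ)) * ∑ h ∈ T, |Jm M a h F - Sm M a F| ≤
        ∑ M ∈ (Ioc (N / K) N).filter (fun M : ℕ => η * Real.log N ≤ Real.log M),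
        ((1 / (M : ℝ)) * c + (1 / (M : ℝ)) * ∑ j, XX H M (ψ j) / (2 * e₂)) := by
      refine Finset.sum_le_sum fun M hM => ?_
      rw [← mul_add]
      exact mul_le_mul_of_nonneg_left (hlarge M hM) (by positivity)
    have h2 : ∑ M ∈ (Ioc (N / K) N).filter (fun M : ℕ => η * Real.log N ≤ Real.log M),
        ((1 / (M : ℝ)) * c + (1 / (M : ℝ)) * ∑ j, XX H M (ψ j) / (2 * e₂)) ≤
        ∑ M ∈ Ioc (N / K) N,
        ((1 / (M : ℝ)) * c + (1 / (M : ℝ)) * ∑ j, XX H M (ψ j) / (2 * e₂)) := by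
      apply Finset.sum_le_sum_of_subset_of_nonneg (Finset.filter_subset _ _)
      intro M _ _
      have h3 : 0 ≤ ∑ j, XX H M (ψ j) / (2 * e₂) := Finset.sum_nonneg fun j _ =>
        div_nonneg (XX_nonneg _ _ _) (by positivity)
      positivity
    refine (h1.trans h2).trans ?_
    rw [Finset.sum_add_distrib]
    apply add_le_add
    · rw [← Finset.sum_mul, mul_comm]
      exact mul_le_mul_of_nonneg_left hmass hc0
    · have h3 : ∑ M ∈ Ioc (N / K) N, (1 / (M : ℝ)) * ∑ j, XX H M (ψ j) / (2 * e₂) =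
          ∑ j, (∑ M ∈ Ioc (N / K) N, (1 / (M : ℝ)) * XX H M (ψ j)) / (2 * e₂) := by
        have h4 : ∀ M ∈ Ioc (N / K) N, (1 / (M : ℝ)) * ∑ j, XX H M (ψ j) / (2 * e₂) =
            ∑ j, (1 / (M : ℝ)) * XX H M (ψ j) / (2 * e₂) := by
          intro M _
          rw [Finset.mul_sum]
          refine Finset.sum_congr rfl fun j _ => ?_
          ring
        rw [Finset.sum_congr rfl h4, Finset.sum_comm]
        refine Finset.sum_congr rfl fun j _ => ?_
        rw [Finset.sum_div]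
      rw [h3]
      have h5 : ∀ j ∈ (Finset.univ : Finset (Fin J)),
          (∑ M ∈ Ioc (N / K) N, (1 / (M : ℝ)) * XX H M (ψ j)) / (2 * e₂) ≤
            ε * e₂ / (8 * C') * Real.log K / (2 * e₂) := by
        intro j _
        apply div_le_div_of_nonneg_right _ (by positivity)
        exact hpairs N K hNp hKp hKN (fun _ => ψ j) (fun _ => hψ j)
      refine (Finset.sum_le_sum h5).trans ?_
      rw [Finset.sum_const, Finset.card_univ, Fintype.card_fin, nsmul_eq_mul]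
  -- the small scales
  have hsmall : ∑ M ∈ (Ioc (N / K) N).filter (fun M : ℕ => ¬ η * Real.log N ≤ Real.log M),
      (1 / (M : ℝ)) * ∑ h ∈ T, |Jm M a h F - Sm M a F| ≤
      T.card * (2 + ε / 16 * Real.log K) := by
    have htriv : ∀ M : ℕ, ∑ h ∈ T, |Jm M a h F - Sm M a F| ≤ T.card * 2 := by
      intro M
      have h1 : ∀ h ∈ T, |Jm M a h F - Sm M a F| ≤ 2 := by
        intro h _
        have h2 := Jm_abs M a h F hF
        have h3 := Sm_abs M a F hF
        have := abs_sub (Jm M a h F) (Sm M a F)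
        linarith
      refine (Finset.sum_le_sum h1).trans ?_
      rw [Finset.sum_const, nsmul_eq_mul]
    rcases Finset.eq_empty_or_nonempty
      ((Ioc (N / K) N).filter (fun M : ℕ => ¬ η * Real.log N ≤ Real.log M)) with hemp | ⟨M0, hM0⟩
    · rw [hemp, Finset.sum_empty]
      exact mul_nonneg (Nat.cast_nonneg _) (by positivity)
    · rw [Finset.mem_filter, not_le] at hM0
      have hM0W := Finset.mem_Ioc.1 hM0.1
      have hM0pos : (0 : ℝ) < M0 := by
        have : 0 < M0 := lt_of_le_of_lt (Nat.zero_le _) hM0W.1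
        exact_mod_cast this
      have h1 : (N : ℝ) < M0 * K := by
        have := (Nat.div_lt_iff_lt_mul hK1).1 hM0W.1
        exact_mod_cast this
      have h2 : Real.log N ≤ Real.log M0 + Real.log K := by
        rw [← Real.log_mul hM0pos.ne' hKr.ne']
        exact Real.log_le_log hNr h1.le
      have h3 : Real.log N ≤ 2 * Real.log K := by
        have h4 : η * Real.log N ≤ 1 / 2 * Real.log N := mul_le_mul_of_nonneg_right hη2 hlogN
        linarith [hM0.2]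
      calc ∑ M ∈ (Ioc (N / K) N).filter (fun M : ℕ => ¬ η * Real.log N ≤ Real.log M),
            (1 / (M : ℝ)) * ∑ h ∈ T, |Jm M a h F - Sm M a F|
          ≤ ∑ M ∈ (Ioc (N / K) N).filter (fun M : ℕ => ¬ η * Real.log N ≤ Real.log M),
            (1 / (M : ℝ)) * (T.card * 2) := by
            refine Finset.sum_le_sum fun M hM => ?_
            exact mul_le_mul_of_nonneg_left (htriv M) (by positivity)
        _ ≤ ∑ M ∈ (Finset.Icc 1 N).filter (fun M : ℕ => ¬ η * Real.log N ≤ Real.log M),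
            (1 / (M : ℝ)) * (T.card * 2) := by
            apply Finset.sum_le_sum_of_subset_of_nonneg
            · intro M hM
              rw [Finset.mem_filter] at hM ⊢
              have h5 := Finset.mem_Ioc.1 hM.1
              refine ⟨Finset.mem_Icc.2 ⟨?_, h5.2⟩, hM.2⟩
              exact Nat.succ_le_of_lt (lt_of_le_of_lt (Nat.zero_le _) h5.1)
            · intro M _ _
              exact mul_nonneg (by positivity) (mul_nonneg (Nat.cast_nonneg _) (by norm_num))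
        _ = (T.card * 2) *
            ∑ M ∈ (Finset.Icc 1 N).filter (fun M : ℕ => ¬ η * Real.log N ≤ Real.log M),
            (1 / (M : ℝ)) := by
            rw [← Finset.sum_mul, mul_comm]
        _ ≤ (T.card * 2) * (1 + η * Real.log N) :=
            mul_le_mul_of_nonneg_left (DG.F1.small_scales N hNone η hη0)
              (mul_nonneg (Nat.cast_nonneg _) (by norm_num))
        _ ≤ T.card * (2 + ε / 16 * Real.log K) := by
            have h6 : η * Real.log N ≤ ε / 64 * (2 * Real.log K) :=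
              mul_le_mul hη1 h3 hlogN (by positivity)
            have h7 : (T.card : ℝ) * 2 * (1 + η * Real.log N) =
              T.card * (2 * (1 + η * Real.log N)) := by ring
            rw [h7]
            refine mul_le_mul_of_nonneg_left ?_ (Nat.cast_nonneg _)
            linarith
  rw [← Finset.sum_filter_add_sum_filter_not (Ioc (N / K) N)
    (fun M : ℕ => η * Real.log N ≤ Real.log M)] at hmain
  have hfin := arith ε C' B₁ T.card (Real.log K) J e₂ hε hC'1 hJC he₂ ht1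
    (((le_max_left _ _).trans hB).trans (by rw [hTR]; linarith))
    (((le_max_right _ _).trans hB).trans (by rw [hTR]; linarith)) hlogKε
  linarith

end FR
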