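import Pool.Agent.Helper6.FR.F6Far

/-!
# FAR-7: the splitting theorem

PROOF. `I ∪ J` and `h ∉ I ∪ J`; `G_h l = F l (l h)`: `|G_h| ≤ 1`, slow outside `I ∪ {h}` (`i ∈ J`: hypothesis, `i ≠ h`; `i ∉ I ∪ J`,
`i ≠ h`: no dependence). `DG.setSt_holds H (image of I ∪ {h})`, for the finitely many `I`, `h` (take the minimum of the `δ`,
the maxima of `K0, N0`): `∑ (1/M) |cons - MxS H (I ∪ {h}) M G_h| ≤ (ε/8) log K`. In `MxS` the coordinate `h` is `Ω(n + h)`, those in
`I` are `Ω(n + i)`, and `F` does not depend on the others except those in `J`: so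
`MxS .. G_h = Jm M a h (Φ M)` with `a` an enumeration of `I` (`I.equivFin`/`Finset.orderEmbOfFin`),
`Φ M y x = 1/M^H ∑_{m ∈ [1,M]^H} F (i ↦ if i ∈ I then y_i else Ω(m_i)) x`. `|Φ M - Φ N| ≤ ε/16` for `η log N ≤ log M` (`cutLog H` twice).
`farA k (ε/4)` for `Φ N`; `Sm M a (Φ M)` is the mixed mean `mixed M I F h`: `F` does not depend on the coordinate `h ∉ I ∪ J` of its
first argument, so `Ω(m h)` is independent of the rest (exchange `∑_{m ∈ [1,M]^H}` and one more variable: in
`1/M^H ∑_m F (..) (Ω(m h))` the terms depend on `m h` only through the last argument; both equal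
`1/M^H ∑_m (1/M) ∑_{m'} F (..) (Ω(m'))`). The scales with `log M < η log N` as in FAR-6.
-/

set_option autoImplicit false

namespace FR

open Finset Helper13.Om Helper11.QR AS

/-- The mean over `n ≤ M` of `F` at the vector `(Ω(n + i))_{i < H}` and `Ω(n + h)`. -/
noncomputable def cons (H M : ℕ) (F : (Fin H → ℕ) → ℕ → ℝ) (h : Fin H) : ℝ :=
  1 / (M : ℝ) * ∑ n ∈ Icc 1 M, F (fun i => ArithmeticFunction.cardFactors (n + (i : ℕ)))
    (ArithmeticFunction.cardFactors (n + (h : ℕ)))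

/-- The coordinates outside `I`, and the last argument of `F`, are independent. -/
noncomputable def mixed (H M : ℕ) (I : Finset (Fin H)) (F : (Fin H → ℕ) → ℕ → ℝ) (h : Fin H) : ℝ :=
  1 / (M : ℝ) * ∑ n ∈ Icc 1 M, (1 / (M : ℝ) ^ H *
    ∑ m ∈ Fintype.piFinset (fun _ : Fin H => Icc 1 M),
      F (fun i => if i ∈ I then ArithmeticFunction.cardFactors (n + (i : ℕ))
        else ArithmeticFunction.cardFactors (m i)) (ArithmeticFunction.cardFactors (m h)))

private lemma swap_mean {H : ℕ} (M : ℕ) (h : Fin H) (g : (Fin H → ℕ) → ℕ → ℝ)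
    (hg : ∀ m v x, g (Function.update m h v) x = g m x) :
    ∑ m' ∈ Icc 1 M, ∑ m ∈ Fintype.piFinset (fun _ : Fin H => Icc 1 M), g m m' =
      (M : ℝ) * ∑ m ∈ Fintype.piFinset (fun _ : Fin H => Icc 1 M), g m (m h) := by
  have h1 : (M : ℝ) * ∑ m ∈ Fintype.piFinset (fun _ : Fin H => Icc 1 M), g m (m h) =
      ∑ _m' ∈ Icc 1 M, ∑ m ∈ Fintype.piFinset (fun _ : Fin H => Icc 1 M), g m (m h) := by
    rw [Finset.sum_const, Nat.card_Icc, Nat.add_sub_cancel, nsmul_eq_mul]
  rw [h1, ← Finset.sum_product', ← Finset.sum_product']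
  have hmem : ∀ p : ℕ × (Fin H → ℕ), p ∈ Icc 1 M ×ˢ Fintype.piFinset (fun _ : Fin H => Icc 1 M) →
      (p.2 h, Function.update p.2 h p.1) ∈
        Icc 1 M ×ˢ Fintype.piFinset (fun _ : Fin H => Icc 1 M) := by
    intro p hp
    rw [Finset.mem_product, Fintype.mem_piFinset] at hp ⊢
    refine ⟨hp.2 h, fun i => ?_⟩
    by_cases hi : i = h
    · subst hi
      simpa using hp.1
    · simpa [Function.update_of_ne hi] using hp.2 i
  have hinv : ∀ p : ℕ × (Fin H → ℕ), (Function.update p.2 h p.1 h,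
      Function.update (Function.update p.2 h p.1) h (p.2 h)) = p := by
    intro p
    rw [Function.update_self, Function.update_idem, Function.update_eq_self]
  refine Finset.sum_nbij' (fun p => (p.2 h, Function.update p.2 h p.1))
    (fun p => (p.2 h, Function.update p.2 h p.1)) hmem hmem (fun p _ => hinv p)
    (fun p _ => hinv p) (fun p _ => ?_)
  simp only
  rw [hg, Function.update_self]

private lemma Jm_le {k : ℕ} (M : ℕ) (hM : 1 ≤ M) (a : Fin k → ℕ) (h : ℕ)
    (F : (Fin k → ℕ) → ℕ → ℝ) (c : ℝ) (hF : ∀ y x, |F y x| ≤ c) : |Jm M a h F| ≤ c := by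
  have hM0 : (0 : ℝ) < M := by exact_mod_cast hM
  unfold Jm
  rw [abs_mul, abs_of_pos (by positivity), one_div_mul_eq_div, div_le_iff₀ hM0]
  refine (Finset.abs_sum_le_sum_abs _ _).trans ?_
  refine (Finset.sum_le_card_nsmul _ _ c (fun n _ => hF _ _)).trans (le_of_eq ?_)
  rw [Nat.card_Icc, Nat.add_sub_cancel, nsmul_eq_mul, mul_comm]

private lemma Sm_le {k : ℕ} (M : ℕ) (hM : 1 ≤ M) (a : Fin k → ℕ)
    (F : (Fin k → ℕ) → ℕ → ℝ) (c : ℝ) (hF : ∀ y x, |F y x| ≤ c) : |Sm M a F| ≤ c := by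
  have hM0 : (0 : ℝ) < M := by exact_mod_cast hM
  have hin : ∀ n : ℕ, |1 / (M : ℝ) * ∑ m ∈ Icc 1 M,
      F (fun c => ArithmeticFunction.cardFactors (n + a c)) (ArithmeticFunction.cardFactors m)| ≤ c := by
    intro n
    rw [abs_mul, abs_of_pos (by positivity), one_div_mul_eq_div, div_le_iff₀ hM0]
    refine (Finset.abs_sum_le_sum_abs _ _).trans ?_
    refine (Finset.sum_le_card_nsmul _ _ c (fun n _ => hF _ _)).trans (le_of_eq ?_)
    rw [Nat.card_Icc, Nat.add_sub_cancel, nsmul_eq_mul, mul_comm]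
  unfold Sm
  rw [abs_mul, abs_of_pos (by positivity), one_div_mul_eq_div, div_le_iff₀ hM0]
  refine (Finset.abs_sum_le_sum_abs _ _).trans ?_
  refine (Finset.sum_le_card_nsmul _ _ c (fun n _ => hin _)).trans (le_of_eq ?_)
  rw [Nat.card_Icc, Nat.add_sub_cancel, nsmul_eq_mul, mul_comm]

private lemma Jm_sub {k : ℕ} (M : ℕ) (a : Fin k → ℕ) (h : ℕ) (F G : (Fin k → ℕ) → ℕ → ℝ) :
    Jm M a h F - Jm M a h G = Jm M a h (fun y x => F y x - G y x) := by
  unfold Jm
  rw [Finset.sum_sub_distrib, mul_sub]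

private lemma Sm_sub {k : ℕ} (M : ℕ) (a : Fin k → ℕ) (F G : (Fin k → ℕ) → ℕ → ℝ) :
    Sm M a F - Sm M a G = Sm M a (fun y x => F y x - G y x) := by
  unfold Sm
  simp only [Finset.sum_sub_distrib, mul_sub]

/-- The function of the coordinates in `I`, the others averaged. -/
private noncomputable def PhiF {H k : ℕ} (I : Finset (Fin H)) (e : Fin k ≃ {i // i ∈ I})
    (F : (Fin H → ℕ) → ℕ → ℝ) (M : ℕ) (y : Fin k → ℕ) (x : ℕ) : ℝ :=
  Ep H M (fun l => F (fun i => if hi : i ∈ I then y (e.symm ⟨i, hi⟩) else l i) x)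

private lemma PhiF_at {H k : ℕ} (I : Finset (Fin H)) (e : Fin k ≃ {i // i ∈ I})
    (F : (Fin H → ℕ) → ℕ → ℝ) (M n : ℕ) (x : ℕ) :
    PhiF I e F M (fun c => ArithmeticFunction.cardFactors (n + ((e c).1 : ℕ))) x =
      1 / (M : ℝ) ^ H * ∑ m ∈ Fintype.piFinset (fun _ : Fin H => Icc 1 M),
        F (fun i => if i ∈ I then ArithmeticFunction.cardFactors (n + (i : ℕ))
          else ArithmeticFunction.cardFactors (m i)) x := by
  unfold PhiF Ep
  congr 1
  refine Finset.sum_congr rfl fun m _ => ?_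
  refine congrArg (fun l : Fin H → ℕ => F l x) (funext fun i => ?_)
  by_cases hi : i ∈ I
  · rw [dif_pos hi, if_pos hi]
    show ArithmeticFunction.cardFactors (n + ((e (e.symm ⟨i, hi⟩)).1 : ℕ)) = _
    rw [Equiv.apply_symm_apply]
  · rw [dif_neg hi, if_neg hi]

private lemma PhiF_le {H k : ℕ} (I : Finset (Fin H)) (e : Fin k ≃ {i // i ∈ I})
    (F : (Fin H → ℕ) → ℕ → ℝ) (hF : ∀ l x, |F l x| ≤ 1) (M : ℕ) (hM : 1 ≤ M) (y : Fin k → ℕ)
    (x : ℕ) : |PhiF I e F M y x| ≤ 1 :=
  Ep_abs_le_of H M _ hM fun _ => hF _ _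

private lemma cons_eq {H : ℕ} (M : ℕ) (F : (Fin H → ℕ) → ℕ → ℝ) (h : Fin H) :
    cons H M F h = DG.Ec H M (fun l => F l (l h)) := rfl

private lemma Jm_eq {H k : ℕ} (I J : Finset (Fin H)) (e : Fin k ≃ {i // i ∈ I})
    (hIJ : Disjoint I J) (F : (Fin H → ℕ) → ℕ → ℝ)
    (hdep : ∀ l l' x, (∀ i ∈ I ∪ J, l i = l' i) → F l x = F l' x) (M : ℕ) (h : Fin H)
    (hh : h ∉ I ∪ J) :
    Jm M (fun c => ((e c).1 : ℕ)) h (PhiF I e F M) =
      DG.MxS H ((insert h I).image Fin.val) M (fun l => F l (l h)) := by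
  have hmem : ∀ i : Fin H, i.1 ∈ (insert h I).image Fin.val ↔ i ∈ insert h I := by
    intro i
    rw [Finset.mem_image]
    constructor
    · rintro ⟨j, hj, he⟩
      rwa [Fin.ext he] at hj
    · intro hi
      exact ⟨i, hi, rfl⟩
  unfold Jm DG.MxS
  congr 1
  refine Finset.sum_congr rfl fun n _ => ?_
  rw [PhiF_at]
  congr 1
  refine Finset.sum_congr rfl fun m _ => ?_
  simp only [hmem]
  rw [if_pos (Finset.mem_insert_self h I)]
  refine hdep _ _ _ fun i hi => ?_
  rcases Finset.mem_union.1 hi with hi | hi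
  · rw [if_pos hi, if_pos (Finset.mem_insert_of_mem hi)]
  · have h1 : i ∉ I := fun h2 => (Finset.disjoint_left.1 hIJ) h2 hi
    have h2 : i ∉ insert h I := by
      rw [Finset.mem_insert]
      rintro (h3 | h3)
      · exact hh (Finset.mem_union_right _ (h3 ▸ hi))
      · exact h1 h3
    rw [if_neg h1, if_neg h2]

private lemma Sm_eq {H k : ℕ} (I J : Finset (Fin H)) (e : Fin k ≃ {i // i ∈ I})
    (F : (Fin H → ℕ) → ℕ → ℝ)
    (hdep : ∀ l l' x, (∀ i ∈ I ∪ J, l i = l' i) → F l x = F l' x) (M : ℕ) (hM : 1 ≤ M)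
    (h : Fin H) (hh : h ∉ I ∪ J) :
    Sm M (fun c => ((e c).1 : ℕ)) (PhiF I e F M) = mixed H M I F h := by
  have hM0 : (0 : ℝ) < M := by exact_mod_cast hM
  unfold Sm mixed
  congr 1
  refine Finset.sum_congr rfl fun n _ => ?_
  simp only [PhiF_at]
  rw [← Finset.mul_sum]
  have h1 := swap_mean M h (fun m x => F (fun i => if i ∈ I then
    ArithmeticFunction.cardFactors (n + (i : ℕ)) else ArithmeticFunction.cardFactors (m i))
      (ArithmeticFunction.cardFactors x)) (by
    intro m v x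
    refine hdep _ _ _ fun i hi => ?_
    have hne : i ≠ h := fun h2 => hh (h2 ▸ hi)
    rw [Function.update_of_ne hne])
  simp only at h1
  rw [h1]
  field_simp

private lemma small_sum (N K : ℕ) (hN1 : 1 ≤ N) (hK1 : 1 ≤ K) (η : ℝ) (hη0 : 0 < η)
    (hη2 : η ≤ 1 / 2) (D : ℕ → ℝ) (c : ℝ) (hc : 0 ≤ c)
    (hD : ∀ M ∈ Ioc (N / K) N, D M ≤ c) :
    ∑ M ∈ (Ioc (N / K) N).filter (fun M : ℕ => ¬ η * Real.log N ≤ Real.log M),
      (1 / (M : ℝ)) * D M ≤ c * (1 + 2 * η * Real.log K) := by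
  have hKr : (0 : ℝ) < K := by exact_mod_cast hK1
  have hNr : (0 : ℝ) < N := by exact_mod_cast hN1
  have hlK : 0 ≤ Real.log K := Real.log_natCast_nonneg K
  rcases Finset.eq_empty_or_nonempty
    ((Ioc (N / K) N).filter (fun M : ℕ => ¬ η * Real.log N ≤ Real.log M)) with hemp | ⟨M0, hM0⟩
  · rw [hemp, Finset.sum_empty]
    positivity
  · rw [Finset.mem_filter, not_le] at hM0
    have hM0W := Finset.mem_Ioc.1 hM0.1
    have hM0pos : (0 : ℝ) < M0 := by
      have : 0 < M0 := lt_of_le_of_lt (Nat.zero_le _) hM0W.1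
      exact_mod_cast this
    have h1 : (N : ℝ) < M0 * K := by
      have := (Nat.div_lt_iff_lt_mul hK1).1 hM0W.1
      exact_mod_cast this
    have h2 : Real.log N ≤ Real.log M0 + Real.log K := by
      rw [← Real.log_mul hM0pos.ne' hKr.ne']
      exact Real.log_le_log hNr h1.le
    have hlogN : 0 ≤ Real.log N := Real.log_nonneg (by exact_mod_cast hN1)
    have h3 : Real.log N ≤ 2 * Real.log K := by
      have h4 : η * Real.log N ≤ 1 / 2 * Real.log N := mul_le_mul_of_nonneg_right hη2 hlogN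
      linarith [hM0.2]
    calc ∑ M ∈ (Ioc (N / K) N).filter (fun M : ℕ => ¬ η * Real.log N ≤ Real.log M),
          (1 / (M : ℝ)) * D M
        ≤ ∑ M ∈ (Ioc (N / K) N).filter (fun M : ℕ => ¬ η * Real.log N ≤ Real.log M),
            (1 / (M : ℝ)) * c := by
          refine Finset.sum_le_sum fun M hM => ?_
          exact mul_le_mul_of_nonneg_left (hD M (Finset.mem_filter.1 hM).1) (by positivity)
      _ ≤ ∑ M ∈ (Finset.Icc 1 N).filter (fun M : ℕ => ¬ η * Real.log N ≤ Real.log M),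
          (1 / (M : ℝ)) * c := by
          apply Finset.sum_le_sum_of_subset_of_nonneg
          · intro M hM
            rw [Finset.mem_filter] at hM ⊢
            have h5 := Finset.mem_Ioc.1 hM.1
            refine ⟨Finset.mem_Icc.2 ⟨?_, h5.2⟩, hM.2⟩
            exact Nat.succ_le_of_lt (lt_of_le_of_lt (Nat.zero_le _) h5.1)
          · intro M _ _
            positivity
      _ = c * ∑ M ∈ (Finset.Icc 1 N).filter (fun M : ℕ => ¬ η * Real.log N ≤ Real.log M),
          (1 / (M : ℝ)) := by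
          rw [← Finset.sum_mul, mul_comm]
      _ ≤ c * (1 + η * Real.log N) :=
          mul_le_mul_of_nonneg_left (DG.F1.small_scales N hN1 η hη0) hc
      _ ≤ c * (1 + 2 * η * Real.log K) := by
          refine mul_le_mul_of_nonneg_left ?_ hc
          have h6 : η * Real.log N ≤ η * (2 * Real.log K) := mul_le_mul_of_nonneg_left h3 hη0.le
          linarith

theorem split (k : ℕ) (ε : ℝ) (hε : 0 < ε) : ∃ B : ℕ, ∀ H : ℕ, ∃ δ : ℝ, 0 < δ ∧
    ∃ K0 N0 : ℕ, ∀ N K : ℕ, N0 ≤ N → K0 ≤ K → K ≤ N →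
      ∀ I J : Finset (Fin H), I.card = k → Disjoint I J →
      ∀ F : (Fin H → ℕ) → ℕ → ℝ, (∀ l x, |F l x| ≤ 1) →
        (∀ l l' x, (∀ i ∈ I ∪ J, l i = l' i) → F l x = F l' x) →
        (∀ l x, ∀ i ∈ J, |F (Function.update l i (l i + 1)) x - F l x| ≤ δ) →
        ((univ : Finset (Fin H)).filter (fun h => h ∉ I ∪ J ∧ ε * Real.log K <
          ∑ M ∈ Ioc (N / K) N, (1 / (M : ℝ)) *
            |cons H M F h - mixed H M I F h|)).card ≤ B := by
  classical
  obtain ⟨B, hB⟩ := farA k (ε / 4) (by positivity)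
  refine ⟨B, fun H => ?_⟩
  obtain ⟨K1, N1, hfar⟩ := hB H
  choose δ' hδ' K' N' hset using fun I' : Finset ℕ => DG.setSt_holds H I' (ε / 8) (by positivity)
  have hPne : (range H).powerset.Nonempty := ⟨∅, Finset.empty_mem_powerset _⟩
  set η : ℝ := min (ε / 256) (1 / 2) with hη
  have hη0 : 0 < η := lt_min (by positivity) (by norm_num)
  have hη1 : η ≤ ε / 256 := min_le_left _ _
  have hη2 : η ≤ 1 / 2 := min_le_right _ _
  set τ : ℝ := ε / 64 with hτ
  have hτ0 : 0 < τ := by positivity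
  obtain ⟨N2, hcut⟩ := cutLog H η τ hη0 hτ0
  obtain ⟨K2, hK2⟩ : ∃ K2 : ℕ, Real.exp (64 / ε + 2) ≤ K2 := exists_nat_ge _
  refine ⟨(range H).powerset.inf' hPne δ', (Finset.lt_inf'_iff hPne).2 fun I' _ => hδ' I',
    max (max K1 K2) (max ((range H).powerset.sup K') 1),
    max (max N1 N2) (max ((range H).powerset.sup N') 1), ?_⟩
  intro N K hN hK hKN I J hcard hIJ F hF hdep hslow
  have hNN1 : N1 ≤ N := (le_max_left _ _).trans ((le_max_left _ _).trans hN)
  have hNN2 : N2 ≤ N := (le_max_right _ _).trans ((le_max_left _ _).trans hN)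
  have hNs : (range H).powerset.sup N' ≤ N := (le_max_left _ _).trans ((le_max_right _ _).trans hN)
  have hN1 : 1 ≤ N := (le_max_right _ _).trans ((le_max_right _ _).trans hN)
  have hKK1 : K1 ≤ K := (le_max_left _ _).trans ((le_max_left _ _).trans hK)
  have hKK2 : K2 ≤ K := (le_max_right _ _).trans ((le_max_left _ _).trans hK)
  have hKs : (range H).powerset.sup K' ≤ K := (le_max_left _ _).trans ((le_max_right _ _).trans hK)
  have hK1 : 1 ≤ K := (le_max_right _ _).trans ((le_max_right _ _).trans hK)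
  have hKr : (0 : ℝ) < K := by exact_mod_cast hK1
  have hlogK : 64 / ε + 2 ≤ Real.log K := by
    rw [Real.le_log_iff_exp_le hKr]
    exact hK2.trans (by exact_mod_cast hKK2)
  have hlogK2 : 2 ≤ Real.log K := by
    have : 0 ≤ 64 / ε := by positivity
    linarith
  have hlogKε : 64 ≤ ε * Real.log K := by
    have h1 : 64 / ε ≤ Real.log K := by linarith
    rw [div_le_iff₀ hε] at h1
    linarith
  -- enumeration of `I`
  have e : Fin k ≃ {i // i ∈ I} := (Fintype.equivFinOfCardEq (by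
    rw [Fintype.card_coe, hcard])).symm
  set a : Fin k → ℕ := fun c => ((e c).1 : ℕ) with ha
  have hainj : Function.Injective a := by
    intro c c' h
    have h1 : (e c).1 = (e c').1 := Fin.ext h
    exact e.injective (Subtype.ext h1)
  have haH : ∀ c, a c < H := fun c => (e c).1.2
  have hPhi : ∀ y x, |PhiF I e F N y x| ≤ 1 := PhiF_le I e F hF N hN1
  refine le_trans ?_ (hfar N K hNN1 hKK1 hKN a hainj haH (PhiF I e F N) hPhi)
  refine Finset.card_le_card_of_injOn (fun h : Fin H => (h : ℕ)) ?_ (fun x _ y _ hxy => Fin.ext hxy)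
  intro h hh
  rw [Finset.mem_coe, Finset.mem_filter] at hh
  rw [Finset.mem_coe, Finset.mem_filter]
  obtain ⟨-, hhIJ, hlt⟩ := hh
  refine ⟨Finset.mem_range.2 h.2, ?_, ?_⟩
  · intro c hc
    have h1 : (e c).1 = h := Fin.ext hc
    exact hhIJ (Finset.mem_union_left _ (h1 ▸ (e c).2))
  by_contra hcon
  rw [not_lt] at hcon
  apply absurd hlt
  rw [not_lt]
  set W : Finset ℕ := Ioc (N / K) N with hW
  have hWpos : ∀ M ∈ W, 1 ≤ M := by
    intro M hM
    exact Nat.succ_le_of_lt (lt_of_le_of_lt (Nat.zero_le _) (Finset.mem_Ioc.1 hM).1)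
  -- part 1: the set theorem
  set I' : Finset ℕ := (insert h I).image Fin.val with hI'
  have hI'P : I' ∈ (range H).powerset := by
    rw [Finset.mem_powerset]
    intro i hi
    obtain ⟨j, _, rfl⟩ := Finset.mem_image.1 hi
    exact Finset.mem_range.2 j.2
  have hpart1 : ∑ M ∈ W, (1 / (M : ℝ)) *
      |DG.Ec H M (fun l => F l (l h)) - DG.MxS H I' M (fun l => F l (l h))| ≤
      ε / 8 * Real.log K := by
    refine hset I' N K ((Finset.le_sup (f := N') hI'P).trans hNs)
      ((Finset.le_sup (f := K') hI'P).trans hKs) hKN _ (fun l => hF _ _) ?_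
    intro l i hi
    have hδle : (range H).powerset.inf' hPne δ' ≤ δ' I' := Finset.inf'_le _ hI'P
    have hi1 : i ∉ insert h I := by
      intro h1
      exact hi (Finset.mem_image.2 ⟨i, h1, rfl⟩)
    have hih : h ≠ i := by
      rintro rfl
      exact hi1 (Finset.mem_insert_self _ _)
    have hiI : i ∉ I := fun h1 => hi1 (Finset.mem_insert_of_mem h1)
    simp only
    rw [Function.update_of_ne hih]
    by_cases hiJ : i ∈ J
    · exact (hslow l (l h) i hiJ).trans hδle
    · have h1 : F (Function.update l i (l i + 1)) (l h) = F l (l h) := by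
        refine hdep _ _ _ fun j hj => ?_
        have hne : j ≠ i := by
          rintro rfl
          rcases Finset.mem_union.1 hj with h2 | h2
          · exact hiI h2
          · exact hiJ h2
        rw [Function.update_of_ne hne]
      rw [h1, sub_self, abs_zero]
      exact (hδ' I').le
  -- part 2: the change of scale
  set D : ℕ → ℝ := fun M => |Jm M a h (PhiF I e F M) - Jm M a h (PhiF I e F N)| +
    |Sm M a (PhiF I e F M) - Sm M a (PhiF I e F N)| with hD
  have hD4 : ∀ M ∈ W, D M ≤ 4 := by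
    intro M hM
    have hM1 := hWpos M hM
    have hb : ∀ y x, |PhiF I e F M y x - PhiF I e F N y x| ≤ 2 := by
      intro y x
      have h1 := PhiF_le I e F hF M hM1 y x
      have h2 := hPhi y x
      have h3 := abs_sub (PhiF I e F M y x) (PhiF I e F N y x)
      linarith
    have h1 := Jm_le M hM1 a h _ 2 hb
    have h2 := Sm_le M hM1 a _ 2 hb
    show |_| + |_| ≤ _
    rw [Jm_sub, Sm_sub]
    linarith
  have hDl : ∀ M ∈ W, η * Real.log N ≤ Real.log M → D M ≤ 4 * τ := by
    intro M hM hlog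
    have hM1 := hWpos M hM
    have hMN : M ≤ N := (Finset.mem_Ioc.1 hM).2
    have hlogN : 0 ≤ Real.log N := Real.log_natCast_nonneg N
    have hb : ∀ y x, |PhiF I e F M y x - PhiF I e F N y x| ≤ 2 * τ := by
      intro y x
      have h1 := hcut N hNN2 M hMN hlog (fun l => F (fun i => if hi : i ∈ I then
        y (e.symm ⟨i, hi⟩) else l i) x) (fun l => hF _ _)
      have h2 := hcut N hNN2 N le_rfl (by nlinarith) (fun l => F (fun i => if hi : i ∈ I then
        y (e.symm ⟨i, hi⟩) else l i) x) (fun l => hF _ _)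
      unfold PhiF
      rw [abs_le] at h1 h2 ⊢
      constructor <;> linarith
    have h1 := Jm_le M hM1 a h _ (2 * τ) hb
    have h2 := Sm_le M hM1 a _ (2 * τ) hb
    show |_| + |_| ≤ _
    rw [Jm_sub, Sm_sub]
    linarith
  have hpart2 : ∑ M ∈ W, (1 / (M : ℝ)) * D M ≤ ε / 2 * Real.log K := by
    rw [← Finset.sum_filter_add_sum_filter_not W (fun M : ℕ => η * Real.log N ≤ Real.log M)]
    have h1 : ∑ M ∈ W.filter (fun M : ℕ => η * Real.log N ≤ Real.log M), (1 / (M : ℝ)) * D M ≤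
        4 * τ * (Real.log K + 2) := by
      calc ∑ M ∈ W.filter (fun M : ℕ => η * Real.log N ≤ Real.log M), (1 / (M : ℝ)) * D M
          ≤ ∑ M ∈ W.filter (fun M : ℕ => η * Real.log N ≤ Real.log M),
              (1 / (M : ℝ)) * (4 * τ) := by
            refine Finset.sum_le_sum fun M hM => ?_
            rw [Finset.mem_filter] at hM
            exact mul_le_mul_of_nonneg_left (hDl M hM.1 hM.2) (by positivity)
        _ ≤ ∑ M ∈ W, (1 / (M : ℝ)) * (4 * τ) := by
            apply Finset.sum_le_sum_of_subset_of_nonneg (Finset.filter_subset _ _)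
            intro M _ _
            positivity
        _ = 4 * τ * ∑ M ∈ W, (1 / (M : ℝ)) := by
            rw [← Finset.sum_mul, mul_comm]
        _ ≤ 4 * τ * (Real.log K + 2) :=
            mul_le_mul_of_nonneg_left (harm_window N K hK1 hKN) (by positivity)
    have h2 := small_sum N K hN1 hK1 η hη0 hη2 D 4 (by norm_num) hD4
    have h3 : 4 * τ * (Real.log K + 2) ≤ ε / 8 * Real.log K := by
      have h4 : 4 * τ = ε / 16 := by rw [hτ]; ring
      rw [h4]
      nlinarith
    have h5 : η * Real.log K ≤ ε / 256 * Real.log K :=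
      mul_le_mul_of_nonneg_right hη1 (by linarith)
    linarith
  -- assembly
  have hkey : ∀ M ∈ W, (1 / (M : ℝ)) * |cons H M F h - mixed H M I F h| ≤
      (1 / (M : ℝ)) * |DG.Ec H M (fun l => F l (l h)) - DG.MxS H I' M (fun l => F l (l h))| +
      (1 / (M : ℝ)) * D M +
      (1 / (M : ℝ)) * |Jm M a h (PhiF I e F N) - Sm M a (PhiF I e F N)| := by
    intro M hM
    have hM1 := hWpos M hM
    rw [← mul_add, ← mul_add]
    refine mul_le_mul_of_nonneg_left ?_ (by positivity)
    rw [← Jm_eq I J e hIJ F hdep M h hhIJ, ← Sm_eq I J e F hdep M hM1 h hhIJ, ← cons_eq]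
    show _ ≤ _ + (|Jm M a h (PhiF I e F M) - Jm M a h (PhiF I e F N)| +
      |Sm M a (PhiF I e F M) - Sm M a (PhiF I e F N)|) + _
    have e1 : cons H M F h - Sm M a (PhiF I e F M) =
        (cons H M F h - Jm M a h (PhiF I e F M)) +
        ((Jm M a h (PhiF I e F M) - Jm M a h (PhiF I e F N)) -
        (Sm M a (PhiF I e F M) - Sm M a (PhiF I e F N))) +
        (Jm M a h (PhiF I e F N) - Sm M a (PhiF I e F N)) := by ring
    rw [e1]
    refine (abs_add_le _ _).trans (add_le_add ((abs_add_le _ _).trans (add_le_add le_rfl ?_)) le_rfl)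
    exact abs_sub _ _
  calc ∑ M ∈ W, (1 / (M : ℝ)) * |cons H M F h - mixed H M I F h|
      ≤ ∑ M ∈ W, ((1 / (M : ℝ)) *
          |DG.Ec H M (fun l => F l (l h)) - DG.MxS H I' M (fun l => F l (l h))| +
          (1 / (M : ℝ)) * D M +
          (1 / (M : ℝ)) * |Jm M a h (PhiF I e F N) - Sm M a (PhiF I e F N)|) :=
        Finset.sum_le_sum hkey
    _ ≤ ε / 8 * Real.log K + ε / 2 * Real.log K + ε / 4 * Real.log K := by
        rw [Finset.sum_add_distrib, Finset.sum_add_distrib]
        exact add_le_add (add_le_add hpart1 hpart2) hcon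
    _ ≤ ε * Real.log K := by
        have : 0 ≤ ε * Real.log K := by positivity
        linarith

end FR
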